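import Pool.Agent.H964R2.Gon.Param

/-!
# The surface is closed and smooth
-/

namespace Pool.Agent.H964R2.Gon

open MvPolynomial

universe u

variable {k : Type u} [Field k]

/-- The minors. -/
noncomputable def polM (k : Type u) [Field k] (a b : I9) : MvPolynomial I9 k :=
  X a * X b - X (a.1, b.2) * X (b.1, a.2)

/-- `x_l ∑ xᵢ yᵢ²` -/
noncomputable def polF (k : Type u) [Field k] (l : Fin 3) : MvPolynomial I9 k :=
  ∑ i, X (i, i) * X (l, i)

/-- `y_l ∑ xᵢ² yᵢ` -/
noncomputable def polG (k : Type u) [Field k] (l : Fin 3) : MvPolynomial I9 k :=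
  ∑ i, X (i, i) * X (i, l)

theorem polM_hom (a b : I9) : (polM k a b).IsHomogeneous 2 :=
  ((isHomogeneous_X k _).mul (isHomogeneous_X k _)).sub
    ((isHomogeneous_X k _).mul (isHomogeneous_X k _))

theorem polF_hom (l : Fin 3) : (polF k l).IsHomogeneous 2 :=
  IsHomogeneous.sum _ _ _ fun _ _ => (isHomogeneous_X k _).mul (isHomogeneous_X k _)

theorem polG_hom (l : Fin 3) : (polG k l).IsHomogeneous 2 :=
  IsHomogeneous.sum _ _ _ fun _ _ => (isHomogeneous_X k _).mul (isHomogeneous_X k _)

theorem polM_vanishes (a b : I9) : VanishesOn (polM k a b) (surf k) := by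
  intro z hz
  have := hz.2.1 a.1 a.2 b.1 b.2
  simp only [polM, map_sub, map_mul, eval_X]
  linear_combination this

theorem polF_vanishes (l : Fin 3) : VanishesOn (polF k l) (surf k) := by
  intro z hz
  simpa [polF] using hz.2.2.1 l

theorem polG_vanishes (l : Fin 3) : VanishesOn (polG k l) (surf k) := by
  intro z hz
  simpa [polG] using hz.2.2.2 l

theorem isClosedSet_surf : IsClosedSet (surf k) := by
  refine ⟨Set.range (fun a : I9 × I9 => polM k a.1 a.2) ∪ (Set.range (polF k) ∪
    Set.range (polG k)), ?_, ?_⟩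
  · rintro F (⟨a, rfl⟩ | ⟨l, rfl⟩ | ⟨l, rfl⟩)
    · exact ⟨2, polM_hom _ _⟩
    · exact ⟨2, polF_hom _⟩
    · exact ⟨2, polG_hom _⟩
  · ext z
    constructor
    · intro hz
      refine ⟨hz.1, ?_⟩
      rintro F (⟨a, rfl⟩ | ⟨l, rfl⟩ | ⟨l, rfl⟩)
      · exact polM_vanishes _ _ z hz
      · exact polF_vanishes _ z hz
      · exact polG_vanishes _ z hz
    · rintro ⟨h0, h⟩
      refine ⟨h0, fun i j a b => ?_, fun l => ?_, fun l => ?_⟩
      · have := h _ (Or.inl ⟨((i, j), (a, b)), rfl⟩)
        simp only [polM, map_sub, map_mul, eval_X] at this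
        linear_combination this
      · have := h _ (Or.inr (Or.inl ⟨l, rfl⟩))
        simpa [polF] using this
      · have := h _ (Or.inr (Or.inr ⟨l, rfl⟩))
        simpa [polG] using this

/-- The derivative at `z` in the direction `v`. -/
noncomputable def dir (z v : I9 → k) (P : MvPolynomial I9 k) : k :=
  ∑ a, v a * eval z (pderiv a P)

theorem dir_X (z v : I9 → k) (a : I9) : dir z v (X a) = v a := by
  classical
  simp [dir, pderiv_X, Pi.single_apply, apply_ite]

theorem dir_sub (z v : I9 → k) (P Q : MvPolynomial I9 k) :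
    dir z v (P - Q) = dir z v P - dir z v Q := by
  simp [dir, mul_sub, Finset.sum_sub_distrib]

theorem dir_sum (z v : I9 → k) {τ : Type*} (s : Finset τ) (P : τ → MvPolynomial I9 k) :
    dir z v (∑ i ∈ s, P i) = ∑ i ∈ s, dir z v (P i) := by
  simp only [dir, map_sum, Finset.mul_sum]
  exact Finset.sum_comm

theorem dir_mul (z v : I9 → k) (P Q : MvPolynomial I9 k) :
    dir z v (P * Q) = dir z v P * eval z Q + eval z P * dir z v Q := by
  simp only [dir, Derivation.leibniz, smul_eq_mul, map_add, map_mul, Finset.sum_mul,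
    Finset.mul_sum, ← Finset.sum_add_distrib]
  exact Finset.sum_congr rfl fun i _ => by ring

theorem dir_polM (z v : I9 → k) (a b : I9) : dir z v (polM k a b) =
    v a * z b + z a * v b - (v (a.1, b.2) * z (b.1, a.2) + z (a.1, b.2) * v (b.1, a.2)) := by
  simp only [polM, dir_sub, dir_mul, dir_X, eval_X]

theorem dir_polF (z v : I9 → k) (l : Fin 3) : dir z v (polF k l) =
    ∑ i, (v (i, i) * z (l, i) + z (i, i) * v (l, i)) := by
  simp only [polF, dir_sum, dir_mul, dir_X, eval_X]

theorem dir_polG (z v : I9 → k) (l : Fin 3) : dir z v (polG k l) =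
    ∑ i, (v (i, i) * z (i, l) + z (i, i) * v (i, l)) := by
  simp only [polG, dir_sum, dir_mul, dir_X, eval_X]

/-- The index type of the six polynomials. -/
abbrev J6 (p q : Fin 3) := {a : I9 // a.1 ≠ p ∧ a.2 ≠ q} ⊕ Bool

theorem card_J6 (p q : Fin 3) : Fintype.card (Fin (Fintype.card I9 - (2 + 1))) =
    Fintype.card (J6 p q) := by
  revert p q
  decide

/-- The six polynomials. -/
noncomputable def pol6 (k : Type u) [Field k] (p q : Fin 3) : J6 p q → MvPolynomial I9 k
  | Sum.inl a => polM k (p, q) a.1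
  | Sum.inr false => polF k p
  | Sum.inr true => polG k q

theorem linearIndependent_pol6 [CharP k 2] {z : I9 → k} (hz : z ∈ surf k) {p q : Fin 3}
    (hpq : z (p, q) ≠ 0) :
    LinearIndependent k fun (a : J6 p q) i => eval z (pderiv i (pol6 k p q a)) := by
  classical
  obtain ⟨x, y, hx, hy, hzxy, h1, h2⟩ := tensor_of_surf hz hpq
  have two0 : (2 : k) = 0 := CharTwo.two_eq_zero
  have hxp : x p ≠ 0 := by
    intro h; apply hpq; rw [hzxy]; simp [h]
  have hyq : y q ≠ 0 := by rw [hy]; exact one_ne_zero
  rw [Fintype.linearIndependent_iff]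
  intro g hg
  have key : ∀ v : I9 → k, ∑ a : {a : I9 // a.1 ≠ p ∧ a.2 ≠ q}, g (Sum.inl a) *
      dir z v (polM k (p, q) a.1) + (g (Sum.inr true) * dir z v (polG k q) +
        g (Sum.inr false) * dir z v (polF k p)) = 0 := by
    intro v
    have h3 : ∑ a : J6 p q, g a * dir z v (pol6 k p q a) = 0 := by
      have h4 : ∑ i, v i * (∑ a : J6 p q, g a • fun i => eval z (pderiv i (pol6 k p q a))) i = 0 := by
        rw [hg]; simp
      rw [← h4]
      simp only [dir, Finset.sum_apply, Pi.smul_apply, smul_eq_mul, Finset.mul_sum]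
      rw [Finset.sum_comm]
      exact Finset.sum_congr rfl fun i _ => Finset.sum_congr rfl fun a _ => by ring
    rw [Fintype.sum_sum_type] at h3
    simpa [pol6] using h3
  have hF : g (Sum.inr false) = 0 := by
    have h3 := key fun a => if a.1 = q then y a.2 else 0
    have e1 : ∀ a : {a : I9 // a.1 ≠ p ∧ a.2 ≠ q},
        dir z (fun a => if a.1 = q then y a.2 else 0) (polM k (p, q) a.1) = 0 := by
      rintro ⟨⟨i, j⟩, hi, hj⟩
      rw [dir_polM]
      simp only [hzxy]
      split_ifs <;> ring
    have e2 : dir z (fun a => if a.1 = q then y a.2 else 0) (polG k q) = 0 := by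
      rw [dir_polG]
      simp only [hzxy]
      refine Finset.sum_eq_zero fun i _ => ?_
      split_ifs with h
      · subst h
        linear_combination (x i * y i * y i) * two0
      · ring
    have e3 : dir z (fun a => if a.1 = q then y a.2 else 0) (polF k p) = x p * y q ^ 2 := by
      rw [dir_polF]
      simp only [hzxy]
      rw [Finset.sum_add_distrib]
      have e4 : ∑ i, x i * y i * (if p = q then y i else 0) = 0 := by
        split_ifs with h
        · rw [← h1]
          exact Finset.sum_congr rfl fun i _ => by ring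
        · simp
      rw [e4, add_zero]
      simp only [ite_mul, zero_mul, Finset.sum_ite_eq', Finset.mem_univ, if_true]
      ring
    rw [Finset.sum_eq_zero fun a _ => by rw [e1, mul_zero], e2, e3] at h3
    simpa [hxp, hyq] using h3
  have hG : g (Sum.inr true) = 0 := by
    have h3 := key fun a => if a.2 = p then x a.1 else 0
    have e1 : ∀ a : {a : I9 // a.1 ≠ p ∧ a.2 ≠ q},
        dir z (fun a => if a.2 = p then x a.1 else 0) (polM k (p, q) a.1) = 0 := by
      rintro ⟨⟨i, j⟩, hi, hj⟩
      rw [dir_polM]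
      simp only [hzxy]
      split_ifs <;> ring
    have e2 : dir z (fun a => if a.2 = p then x a.1 else 0) (polG k q) = x p ^ 2 * y q := by
      rw [dir_polG]
      simp only [hzxy]
      rw [Finset.sum_add_distrib]
      have e4 : ∑ i, x i * y i * (if q = p then x i else 0) = 0 := by
        split_ifs with h
        · rw [← h2]
          exact Finset.sum_congr rfl fun i _ => by ring
        · simp
      rw [e4, add_zero]
      simp only [ite_mul, zero_mul, Finset.sum_ite_eq', Finset.mem_univ, if_true]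
      ring
    rw [Finset.sum_eq_zero fun a _ => by rw [e1, mul_zero], e2, hF] at h3
    simpa [hxp, hyq] using h3
  rintro (b | b)
  · have h3 := key (Pi.single b.1 1)
    rw [hF, hG, zero_mul, zero_mul, add_zero, add_zero] at h3
    have e1 : ∀ a : {a : I9 // a.1 ≠ p ∧ a.2 ≠ q},
        g (Sum.inl a) * dir z (Pi.single b.1 1) (polM k (p, q) a.1) =
          if a = b then g (Sum.inl b) * z (p, q) else 0 := by
      intro a
      have n1 : ((p, q) : I9) ≠ b.1 := fun h => b.2.1 (by rw [← h])
      have n2 : ((p, a.1.2) : I9) ≠ b.1 := fun h => b.2.1 (by rw [← h])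
      have n3 : ((a.1.1, q) : I9) ≠ b.1 := fun h => b.2.2 (by rw [← h])
      rw [dir_polM]
      rw [Pi.single_eq_of_ne n1, Pi.single_eq_of_ne n2, Pi.single_eq_of_ne n3]
      split_ifs with h
      · subst h
        rw [Pi.single_eq_same]; ring
      · rw [Pi.single_eq_of_ne (fun h' => h (Subtype.ext h'))]; ring
    rw [Finset.sum_congr rfl fun a _ => e1 a] at h3
    simpa [hpq] using h3
  · cases b
    · exact hF
    · exact hG

theorem isSmoothOfDim_surf [CharP k 2] : IsSmoothOfDim (surf k) 2 := by
  intro z hz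
  obtain ⟨⟨p, q⟩, hpq⟩ := Function.ne_iff.1 hz.1
  let e := Fintype.equivOfCardEq (card_J6 p q)
  have h : ∀ j, (∃ m, (pol6 k p q j).IsHomogeneous m) ∧ VanishesOn (pol6 k p q j) (surf k) := by
    rintro (b | b)
    · exact ⟨⟨2, polM_hom _ _⟩, polM_vanishes _ _⟩
    · cases b
      · exact ⟨⟨2, polF_hom _⟩, polF_vanishes _⟩
      · exact ⟨⟨2, polG_hom _⟩, polG_vanishes _⟩
  exact ⟨fun a => pol6 k p q (e a), fun a => h _,
    (linearIndependent_pol6 hz hpq).comp e e.injective⟩

end Pool.Agent.H964R2.Gon
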