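import Pool.Agent.H964R2.Gon.Min
import Pool.Agent.H964R2.Gon.Smooth

/-!
# The curves over the lines missing the points of `ℙ²(𝔽₄)`
-/

namespace Pool.Agent.H964R2.Gon

open MvPolynomial

universe u

/-! ### Rational curves have gonality one -/

section Luroth

variable {k : Type u} [Field k]

theorem isGonality_one {E : IntermediateField k (RatFunc k)} (hE : E ≠ ⊥) :
    IsGonality k E 1 := by
  constructor
  · have hmem : RatFunc.Luroth.generator E ∈ E := RatFunc.Luroth.generator_mem
    have htop : IntermediateField.adjoin k {(⟨RatFunc.Luroth.generator E, hmem⟩ : E)} = ⊤ := by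
      apply IntermediateField.lift_injective
      rw [IntermediateField.lift_adjoin_simple, IntermediateField.lift_top]
      exact RatFunc.Luroth.eq_adjoin_generator.symm
    have hfr := IntermediateField.finrank_eq_one_iff_eq_top.2 htop
    refine ⟨⟨RatFunc.Luroth.generator E, hmem⟩, ?_, ?_, hfr⟩
    · rintro ⟨c, hc⟩
      exact RatFunc.Luroth.generator_spec hE ⟨c, congrArg Subtype.val hc⟩
    · have := Module.Free.of_divisionRing
        (IntermediateField.adjoin k {(⟨RatFunc.Luroth.generator E, hmem⟩ : E)}) E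
      exact Module.finite_of_finrank_pos (by rw [hfr]; exact one_pos)
  · rintro e ⟨f, -, hfin, rfl⟩
    exact Module.finrank_pos

theorem trdeg_ratFunc : Algebra.trdeg k (RatFunc k) = 1 := by
  have h1 := trdeg_add_eq (A := RatFunc k) k (Polynomial k)
  have : Algebra.IsAlgebraic (Polynomial k) (RatFunc k) :=
    IsLocalization.isAlgebraic (RatFunc k) (nonZeroDivisors (Polynomial k))
  rw [trdeg_eq_zero (R := Polynomial k) (A := RatFunc k), Polynomial.trdeg_of_isDomain] at h1
  rw [← h1]
  simp

theorem trdeg_eq_one {E : IntermediateField k (RatFunc k)} (hE : E ≠ ⊥) :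
    Algebra.trdeg k E = 1 := by
  rw [← trdeg_ratFunc (k := k)]
  exact (RatFunc.Luroth.algEquiv hE).trdeg_eq.symm

end Luroth

/-! ### The value of the first projection -/

section Value

variable {k : Type u} [Field k] [CharP k 2] [IsAlgClosed k]

theorem col_mem_iff {z : I9 → k} (hz : z ∈ surf k) (L : Submodule k (Fin 3 → k)) :
    (∃ y ∈ L, HasValue (zeta k) (TT k) z y) ↔ ∀ q, (fun i => z (i, q)) ∈ L := by
  constructor
  · rintro ⟨y, hy, m, G, hG, hrel, hy0, hval⟩ q
    obtain ⟨i0, hi0⟩ := Function.ne_iff.1 hy0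
    have h1 : ∀ i j, y i * z (j, q) = y j * z (i, q) := by
      intro i j
      have h2 : VanishesOn (G i * X (j, q) - G j * X (i, q)) (surf k) := by
        rw [← isGenericPoint_zeta.aeval_eq_zero_iff (m + 1) _
          (((hG i).mul (isHomogeneous_X k _)).sub ((hG j).mul (isHomogeneous_X k _)))]
        simp only [map_sub, map_mul, aeval_X]
        rw [TT_mul i q, TT_mul j q]
        linear_combination (zeta k (0, q)) * hrel i j
      have h3 := h2 z hz
      simp only [map_sub, map_mul, eval_X] at h3
      rw [hval i, hval j]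
      linear_combination h3
    have h2 : (fun i => z (i, q)) = (z (i0, q) / y i0) • y := by
      funext i
      have hi0' : y i0 ≠ 0 := hi0
      have := h1 i0 i
      simp only [Pi.smul_apply, smul_eq_mul]
      field_simp
      linear_combination this
    rw [h2]
    exact L.smul_mem _ hy
  · intro h
    obtain ⟨⟨p, q⟩, hpq⟩ := Function.ne_iff.1 hz.1
    refine ⟨fun i => z (i, q), h q, 1, fun i => X (i, q), fun i => isHomogeneous_X k _,
      fun i j => ?_, fun h0 => hpq (congrFun h0 p), fun i => by simp⟩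
    simp only [aeval_X]
    rw [TT_mul i q, TT_mul j q]
    ring

theorem curve_eq (L : Submodule k (Fin 3 → k)) : curve (surf k) (zeta k) (TT k) L =
    zariskiClosure {z | z ∈ surf k ∧ ∀ q, (fun i => z (i, q)) ∈ L} := by
  rw [curve]
  congr 1
  ext z
  exact and_congr_right fun hz => col_mem_iff hz L

omit [CharP k 2] [IsAlgClosed k] in
theorem vanishesOn_zariskiClosure {ι : Type} [Fintype ι] {A : Set (ι → k)} (hA : ∀ x ∈ A, x ≠ 0)
    {m : ℕ} {F : MvPolynomial ι k} (hF : F.IsHomogeneous m) :
    VanishesOn F (zariskiClosure A) ↔ VanishesOn F A :=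
  ⟨fun h x hx => h x ⟨hA x hx, fun _ _ _ hG => hG x hx⟩, fun h _ hx => hx.2 m F hF h⟩

end Value

/-! ### The general line -/

section Line

variable {k : Type u} [Field k]

/-- The condition for the line not to contain the point `a`. -/
noncomputable def polL (a : Fin 3 → k) : MvPolynomial (Fin 2 × Fin (2 + 1)) k :=
  ∑ i, C (a i) * cr (fun j : Fin 3 => X ((0 : Fin 2), j)) (fun j => X ((1 : Fin 2), j)) i

theorem eval_polL (a : Fin 3 → k) (w : Fin 2 → Fin 3 → k) :
    eval (fun b : Fin 2 × Fin (2 + 1) => w b.1 b.2) (polL a) = ∑ i, a i * cr (w 0) (w 1) i := by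
  rw [polL, map_sum]
  refine Finset.sum_congr rfl fun i _ => ?_
  rw [map_mul, eval_C]
  congr 1
  have := cr_map (eval (fun b : Fin 2 × Fin (2 + 1) => w b.1 b.2))
    (fun j : Fin 3 => X ((0 : Fin 2), j)) (fun j => X ((1 : Fin 2), j)) i
  rw [← this]
  simp

theorem polL_ne_zero {a : Fin 3 → k} (ha : a ≠ 0) : polL a ≠ 0 := by
  intro h
  obtain ⟨i, hi⟩ := Function.ne_iff.1 ha
  have h1 : ∀ w : Fin 2 → Fin 3 → k, ∑ i, a i * cr (w 0) (w 1) i = 0 := by
    intro w
    rw [← eval_polL, h, map_zero]
  apply hi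
  fin_cases i
  · simpa [Fin.sum_univ_three, cr] using h1 ![![0, 1, 0], ![0, 0, 1]]
  · simpa [Fin.sum_univ_three, cr] using h1 ![![0, 0, 1], ![1, 0, 0]]
  · simpa [Fin.sum_univ_three, cr] using h1 ![![1, 0, 0], ![0, 1, 0]]

/-- The nonzero vectors with coordinates in the field with four elements. -/
noncomputable def f4 (k : Type u) [Field k] : Finset (Fin 3 → k) := by
  classical
  exact (Fintype.piFinset fun _ => (Polynomial.X ^ 4 - Polynomial.X : Polynomial k).roots.toFinset).filter
    fun a => a ≠ 0

theorem mem_f4 {a : Fin 3 → k} : a ∈ f4 k ↔ a ≠ 0 ∧ ∀ i, a i ^ 4 = a i := by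
  classical
  have h0 : (Polynomial.X ^ 4 - Polynomial.X : Polynomial k) ≠ 0 := by
    intro h
    have := congrArg (fun p => Polynomial.coeff p 4) h
    simp [Polynomial.coeff_X] at this
  simp only [f4, Finset.mem_filter, Fintype.mem_piFinset, Multiset.mem_toFinset,
    Polynomial.mem_roots h0, Polynomial.IsRoot.def, Polynomial.eval_sub, Polynomial.eval_pow,
    Polynomial.eval_X, sub_eq_zero]
  exact and_comm

/-- The equation of the exceptional lines. -/
noncomputable def polQ (k : Type u) [Field k] : MvPolynomial (Fin 2 × Fin (2 + 1)) k :=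
  ∏ a ∈ f4 k, polL a

theorem polQ_ne_zero : polQ k ≠ 0 :=
  Finset.prod_ne_zero_iff.2 fun _ ha => polL_ne_zero (mem_f4.1 ha).1

variable [CharP k 2]

omit [CharP k 2] in
/-- A vector in a general line has only one point of the surface above it. -/
theorem c4_ne_zero {w : Fin 2 → Fin 3 → k}
    (hw : eval (fun b : Fin 2 × Fin (2 + 1) => w b.1 b.2) (polQ k) ≠ 0) {r : Fin 3 → k}
    (hr : r ≠ 0) (hn : ∑ i, r i ^ 2 * cr (w 0) (w 1) i = 0) : c4 r ≠ 0 := by
  intro hc
  obtain ⟨p, hp⟩ := Function.ne_iff.1 hr
  have hp' : r p ≠ 0 := hp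
  have h1 : ∀ i j, r i * r j ^ 4 = r j * r i ^ 4 := by
    have e0 := congrFun hc 0
    have e1 := congrFun hc 1
    have e2 := congrFun hc 2
    simp only [c4, cr, Matrix.cons_val, Pi.zero_apply] at e0 e1 e2
    intro i j
    fin_cases i <;> fin_cases j <;> simp only [Fin.zero_eta, Fin.mk_one, Fin.reduceFinMk] <;>
      first
      | ring1
      | linear_combination e0
      | linear_combination -e0
      | linear_combination e1
      | linear_combination -e1
      | linear_combination e2
      | linear_combination -e2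
  have h2 : (fun i => (r i / r p) ^ 2) ∈ f4 k := by
    rw [mem_f4]
    refine ⟨fun h => ?_, fun i => ?_⟩
    · have := congrFun h p
      simp [hp'] at this
    · have h3 : (r i / r p) ^ 4 = r i / r p := by
        rw [div_pow, div_eq_div_iff (pow_ne_zero 4 hp') hp']
        linear_combination h1 p i
      rw [← pow_mul, mul_comm 2 4, pow_mul, h3]
  rw [polQ, map_prod, Finset.prod_ne_zero_iff] at hw
  apply hw _ h2
  rw [eval_polL]
  have h3 : ∑ i, (r i / r p) ^ 2 * cr (w 0) (w 1) i =
      (∑ i, r i ^ 2 * cr (w 0) (w 1) i) / r p ^ 2 := by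
    rw [Finset.sum_div]
    exact Finset.sum_congr rfl fun i _ => by rw [div_pow]; ring
  rw [h3, hn, zero_div]

omit [CharP k 2] in
theorem sum_cr_eq_zero (w : Fin 2 → Fin 3 → k) {x : Fin 3 → k}
    (hx : x ∈ Submodule.span k (Set.range w)) : ∑ i, x i * cr (w 0) (w 1) i = 0 := by
  rw [Submodule.mem_span_range_iff_exists_fun] at hx
  obtain ⟨c, rfl⟩ := hx
  simp only [Fin.sum_univ_two, Fin.sum_univ_three, Pi.add_apply, Pi.smul_apply, smul_eq_mul, cr,
    Matrix.cons_val]
  ring

end Line

/-! ### The curve over a general line -/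

section CurveL

variable {k : Type u} [Field k]

/-- The vector `p + τ q` of polynomials. -/
noncomputable def pq (p q : Fin 3 → k) : Fin 3 → Polynomial k := fun i =>
  Polynomial.C (p i) + Polynomial.X * Polynomial.C (q i)

/-- The vector `p + τ q` of rational functions. -/
noncomputable def pqF (p q : Fin 3 → k) : Fin 3 → RatFunc k := fun i =>
  algebraMap (Polynomial k) (RatFunc k) (pq p q i)

theorem par_pqF (p q : Fin 3 → k) (a : I9) :
    par (pqF p q) a = algebraMap (Polynomial k) (RatFunc k) (par (pq p q) a) :=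
  par_map (algebraMap (Polynomial k) (RatFunc k)) (pq p q) a

theorem aeval_par_pq (p q : Fin 3 → k) (F : MvPolynomial I9 k) (e : k) :
    Polynomial.eval e (aeval (par (pq p q)) F) = eval (par fun i => p i + e * q i) F := by
  rw [← Polynomial.coe_aeval_eq_eval, comp_aeval_apply, ← aeval_eq_eval]
  congr 1
  congr 1
  funext a
  have := par_map (Polynomial.aeval e : Polynomial k →ₐ[k] k).toRingHom (pq p q) a
  simp only [AlgHom.toRingHom_eq_coe, RingHom.coe_coe] at this
  rw [← this]
  congr 1
  funext i
  simp [pq]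
  ring

/-- The homogeneous version. -/
theorem eval_par_of_aeval_pq [Infinite k] {p q : Fin 3 → k} {m : ℕ} {F : MvPolynomial I9 k}
    (hF : F.IsHomogeneous m) (h : aeval (par (pq p q)) F = 0) (a b : k) :
    eval (par fun i => a * p i + b * q i) F = 0 := by
  have h1 : ∀ a b : k, a ≠ 0 → eval (par fun i => a * p i + b * q i) F = 0 := by
    intro a b ha
    have h2 := aeval_par_pq p q F (b / a)
    rw [h, Polynomial.eval_zero] at h2
    have h3 : (par fun i => a * p i + b * q i) = fun c => a ^ 7 *
        par (fun i => p i + b / a * q i) c := by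
      funext c
      rw [← par_smul]
      congr 1
      funext i
      field_simp
    rw [h3, eval_smul_of_isHomogeneous hF, ← h2, mul_zero]
  let R : Fin 3 → Polynomial k := fun i => Polynomial.X * Polynomial.C (p i) +
    Polynomial.C b * Polynomial.C (q i)
  have h2 : ∀ e, Polynomial.eval e (aeval (par R) F) = eval (par fun i => e * p i + b * q i) F := by
    intro e
    rw [← Polynomial.coe_aeval_eq_eval, comp_aeval_apply, ← aeval_eq_eval]
    congr 1
    congr 1
    funext a
    have := par_map (Polynomial.aeval e : Polynomial k →ₐ[k] k).toRingHom R a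
    simp only [AlgHom.toRingHom_eq_coe, RingHom.coe_coe] at this
    rw [← this]
    congr 1
    funext i
    simp [R]
    ring
  have h3 : Polynomial.X * aeval (par R) F = 0 := by
    apply Polynomial.funext
    intro e
    rw [Polynomial.eval_mul, Polynomial.eval_X, Polynomial.eval_zero]
    by_cases he : e = 0
    · rw [he, zero_mul]
    · rw [h2, h1 e b he, mul_zero]
  rw [mul_eq_zero, or_iff_right Polynomial.X_ne_zero] at h3
  rw [← h2, h3, Polynomial.eval_zero]

variable [CharP k 2] [IsAlgClosed k]

theorem vanishesOn_curve_iff {w : Fin 2 → Fin 3 → k}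
    (hw : eval (fun b : Fin 2 × Fin (2 + 1) => w b.1 b.2) (polQ k) ≠ 0)
    (hli : LinearIndependent k w) {p q : Fin 3 → k} (hp : ∀ i, p i ^ 2 = w 0 i)
    (hq : ∀ i, q i ^ 2 = w 1 i) {m : ℕ} {F : MvPolynomial I9 k} (hF : F.IsHomogeneous m) :
    aeval (par (pq p q)) F = 0 ↔ VanishesOn F {z | z ∈ surf k ∧ ∀ q, (fun i => z (i, q)) ∈
      Submodule.span k (Set.range w)} := by
  have hinf : Infinite k := inferInstance
  constructor
  · rintro h z ⟨hz, hL⟩
    obtain ⟨⟨a, b⟩, hab⟩ := Function.ne_iff.1 hz.1
    obtain ⟨x, y, hx, hy, hzxy, h1, h2⟩ := tensor_of_surf hz hab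
    have hxL := hL b
    have hxx : (fun i => z (i, b)) = x := funext fun i => (hx i).symm
    rw [hxx, Submodule.mem_span_range_iff_exists_fun] at hxL
    obtain ⟨c, hc⟩ := hxL
    obtain ⟨d0, hd0⟩ := IsAlgClosed.exists_pow_nat_eq (c 0) (n := 2) two_pos
    obtain ⟨d1, hd1⟩ := IsAlgClosed.exists_pow_nat_eq (c 1) (n := 2) two_pos
    set r : Fin 3 → k := fun i => d0 * p i + d1 * q i with hr
    have hrx : ∀ i, r i ^ 2 = x i := by
      intro i
      rw [hr]
      simp only [CharTwo.add_sq, mul_pow, hp, hq, hd0, hd1]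
      rw [← hc]
      simp [Fin.sum_univ_two]
    have e1 : ∑ i, r i * y i = 0 := by
      have h3 : (∑ i, r i * y i) ^ 2 = 0 := by
        rw [CharTwo.sum_sq, ← h1]
        exact Finset.sum_congr rfl fun i _ => by rw [← hrx i]; ring
      exact pow_eq_zero_iff (two_ne_zero) |>.1 h3
    have e2 : ∑ i, r i ^ 4 * y i = 0 := by
      rw [← h2]
      exact Finset.sum_congr rfl fun i _ => by rw [← hrx i]; ring
    have hr0 : r ≠ 0 := by
      intro h0
      apply hab
      rw [hzxy, ← hrx a, h0]
      simp
    have hcr : c4 r ≠ 0 := by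
      apply c4_ne_zero hw hr0
      have h3 := sum_cr_eq_zero w (x := x) (hxx ▸ hL b)
      rw [← h3]
      exact Finset.sum_congr rfl fun i _ => by rw [hrx]
    obtain ⟨j, hj⟩ := Function.ne_iff.1 hcr
    have hz' : z = fun a => (y j / c4 r j) * par r a := by
      funext a
      have h3 : c4 r a.2 * y j = c4 r j * y a.2 := cr_mul_eq r (fun i => r i ^ 4) y e1 e2 _ _
      have hj' : c4 r j ≠ 0 := hj
      rw [hzxy a, ← hrx a.1, par]
      field_simp
      linear_combination (-r a.1 ^ 2) * h3
    rw [hz', eval_smul_of_isHomogeneous hF, eval_par_of_aeval_pq hF h, mul_zero]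
  · intro h
    apply Polynomial.funext
    intro e
    rw [aeval_par_pq, Polynomial.eval_zero]
    set r : Fin 3 → k := fun i => p i + e * q i with hr
    have hrx : (fun i => r i ^ 2) = w 0 + e ^ 2 • w 1 := by
      funext i
      simp only [hr, CharTwo.add_sq, mul_pow, hp, hq, Pi.add_apply, Pi.smul_apply, smul_eq_mul]
    have hL : (fun i => r i ^ 2) ∈ Submodule.span k (Set.range w) := by
      rw [hrx]
      exact add_mem (Submodule.subset_span ⟨0, rfl⟩)
        (Submodule.smul_mem _ _ (Submodule.subset_span ⟨1, rfl⟩))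
    have hr0 : r ≠ 0 := by
      intro h0
      rw [h0] at hrx
      rw [Fintype.linearIndependent_iff] at hli
      have h3 := hli ![1, e ^ 2] (by
        rw [Fin.sum_univ_two]
        simp only [Matrix.cons_val_zero, Matrix.cons_val_one, one_smul]
        rw [← hrx]
        funext i
        simp) 0
      simp at h3
    have hcr : c4 r ≠ 0 := c4_ne_zero hw hr0 (sum_cr_eq_zero w hL)
    obtain ⟨i, hi⟩ := Function.ne_iff.1 hr0
    obtain ⟨j, hj⟩ := Function.ne_iff.1 hcr
    have hne : par r ≠ 0 := by
      intro h0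
      have h3 := congrFun h0 (i, j)
      rw [par] at h3
      rcases mul_eq_zero.1 h3 with h4 | h4
      · exact hi (pow_eq_zero_iff (two_ne_zero) |>.1 h4)
      · exact hj h4
    apply h
    refine ⟨par_mem_surf r hne, fun b => ?_⟩
    have h3 : (fun i => par r (i, b)) = c4 r b • fun i => r i ^ 2 := by
      funext i
      simp only [par, Pi.smul_apply, smul_eq_mul]
      ring
    rw [h3]
    exact Submodule.smul_mem _ _ hL

omit [CharP k 2] [IsAlgClosed k] in
theorem par_pq_ne_zero {w : Fin 2 → Fin 3 → k}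
    (hw : eval (fun b : Fin 2 × Fin (2 + 1) => w b.1 b.2) (polQ k) ≠ 0)
    (hli : LinearIndependent k w) {p : Fin 3 → k} (hp : ∀ i, p i ^ 2 = w 0 i)
    (q : Fin 3 → k) : ∃ j, c4 (pq p q) j ≠ 0 := by
  have h0 : p ≠ 0 := by
    rintro rfl
    have h1 := hli.ne_zero 0
    apply h1
    funext i
    rw [← hp i]
    simp
  have h1 : c4 p ≠ 0 := by
    apply c4_ne_zero hw h0
    have h2 := sum_cr_eq_zero w (x := w 0) (Submodule.subset_span ⟨0, rfl⟩)
    rw [← h2]
    exact Finset.sum_congr rfl fun i _ => by rw [hp]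
  obtain ⟨j, hj⟩ := Function.ne_iff.1 h1
  refine ⟨j, fun h2 => hj ?_⟩
  have h3 := c4_map (Polynomial.evalRingHom (0 : k)) (pq p q) j
  rw [h2, map_zero] at h3
  rw [Pi.zero_apply, ← h3]
  congr 1
  funext i
  simp [pq]

theorem exists_genericPoint {w : Fin 2 → Fin 3 → k}
    (hw : eval (fun b : Fin 2 × Fin (2 + 1) => w b.1 b.2) (polQ k) ≠ 0)
    (hli : LinearIndependent k w) : ∃ (E : Type u) (_ : Field E) (_ : Algebra k E) (γ : I9 → E),
      IsGenericPoint (curve (surf k) (zeta k) (TT k) (Submodule.span k (Set.range w))) γ ∧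
        Algebra.trdeg k E = 1 ∧ IsGonality k E 1 := by
  choose p hp using fun i => IsAlgClosed.exists_pow_nat_eq (w 0 i) (n := 2) two_pos
  choose q hq using fun i => IsAlgClosed.exists_pow_nat_eq (w 1 i) (n := 2) two_pos
  obtain ⟨j0, hj0⟩ := par_pq_ne_zero hw hli hp q
  obtain ⟨i0, hi0⟩ : ∃ i, pq p q i ≠ 0 := by
    by_contra hcon
    push Not at hcon
    apply hj0
    fin_cases j0 <;> simp [c4, cr, hcon]
  have hne : par (pqF p q) (i0, j0) ≠ 0 := by
    rw [par_pqF]
    have h1 : par (pq p q) (i0, j0) ≠ 0 := mul_ne_zero (pow_ne_zero 2 hi0) hj0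
    simpa using h1
  have hE : ratioField k (par (pqF p q)) ≠ ⊥ := by
    intro hE
    have h1 : ∀ i, ∃ c : k, pq p q i ^ 2 = Polynomial.C c * pq p q i0 ^ 2 := by
      intro i
      have h2 : par (pqF p q) (i, j0) / par (pqF p q) (i0, j0) ∈ ratioField k (par (pqF p q)) :=
        IntermediateField.subset_adjoin _ _ ⟨_, _, rfl⟩
      rw [hE, IntermediateField.mem_bot] at h2
      obtain ⟨c, hc⟩ := h2
      refine ⟨c, ?_⟩
      have h3 : algebraMap (Polynomial k) (RatFunc k) (c4 (pq p q) j0) ≠ 0 := by simpa using hj0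
      have h4 : algebraMap (Polynomial k) (RatFunc k) (pq p q i0) ≠ 0 := by simpa using hi0
      apply IsFractionRing.injective (Polynomial k) (RatFunc k)
      rw [par_pqF, par_pqF, par, par, map_mul, map_mul, eq_div_iff (by
        rw [map_pow]; exact mul_ne_zero (pow_ne_zero 2 h4) h3)] at hc
      have h5 : algebraMap (Polynomial k) (RatFunc k) (Polynomial.C c) = algebraMap k (RatFunc k) c := by
        rw [IsScalarTower.algebraMap_apply k (Polynomial k) (RatFunc k)]; rfl
      rw [map_mul, h5]
      apply mul_right_cancel₀ h3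
      rw [← hc]
      ring
    choose c hc using h1
    have h2 : ∀ i, w 0 i = c i * w 0 i0 := by
      intro i
      have := congrArg (Polynomial.eval 0) (hc i)
      simp only [pq, Polynomial.eval_mul, Polynomial.eval_pow, Polynomial.eval_add,
        Polynomial.eval_C, Polynomial.eval_X, zero_mul, add_zero, hp] at this
      exact this
    have h3 : ∀ i, w 1 i = c i * w 1 i0 := by
      intro i
      have := congrArg (Polynomial.eval 1) (hc i)
      simp only [pq, Polynomial.eval_mul, Polynomial.eval_pow, Polynomial.eval_add,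
        Polynomial.eval_C, Polynomial.eval_X, one_mul, CharTwo.add_sq, hp, hq] at this
      linear_combination this - h2 i
    rw [Fintype.linearIndependent_iff] at hli
    have h4 := hli ![w 1 i0, -(w 0 i0)] (by
      rw [Fin.sum_univ_two]
      funext i
      simp only [Matrix.cons_val_zero, Matrix.cons_val_one, Pi.add_apply, Pi.smul_apply,
        smul_eq_mul, Pi.zero_apply]
      rw [h2 i, h3 i]
      ring)
    have h5 : q i0 = 0 := by
      have := h4 0
      simp only [Matrix.cons_val_zero] at this
      rw [← hq i0] at this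
      exact pow_eq_zero_iff (two_ne_zero) |>.1 this
    have h6 : p i0 = 0 := by
      have := h4 1
      simp only [Matrix.cons_val_one, Matrix.cons_val_zero, neg_eq_zero] at this
      rw [← hp i0] at this
      exact pow_eq_zero_iff (two_ne_zero) |>.1 this
    apply hi0
    simp [pq, h5, h6]
  refine ⟨ratioField k (par (pqF p q)), inferInstance, inferInstance,
    gen k (par (pqF p q)) (i0, j0), ⟨?_, ?_, adjoin_gen _ hne⟩, trdeg_eq_one hE,
    isGonality_one hE⟩
  · intro h
    have h1 := congrArg Subtype.val (congrFun h (i0, j0))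
    change par (pqF p q) (i0, j0) / par (pqF p q) (i0, j0) = 0 at h1
    rw [div_self hne] at h1
    exact one_ne_zero h1
  · intro m F hF
    rw [curve_eq, vanishesOn_zariskiClosure (fun x hx => hx.1.1) hF,
      ← vanishesOn_curve_iff hw hli hp hq hF, aeval_gen_eq_zero _ hne hF]
    have h1 : aeval (par (pqF p q)) F =
        algebraMap (Polynomial k) (RatFunc k) (aeval (par (pq p q)) F) := by
      have := comp_aeval_apply (par (pq p q))
        (Algebra.ofId (Polynomial k) (RatFunc k) |>.restrictScalars k) F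
      simp only [AlgHom.coe_restrictScalars', Algebra.ofId_apply] at this
      rw [this]
      congr 1
      congr 1
      funext a
      exact par_pqF p q a
    rw [h1]
    exact map_eq_zero_iff _ (IsFractionRing.injective (Polynomial k) (RatFunc k))

end CurveL

/-- The main theorem. -/
theorem main (k : Type u) [Field k] [IsAlgClosed k] [CharP k 2] :
    ∃ (X : Set (Fin 3 × Fin 3 → k)) (K : Type u) (_ : Field K) (_ : Algebra k K)
      (ζ : Fin 3 × Fin 3 → K) (T : Fin 3 → K),
      IsNice X 2 ζ ∧ IsMinimalDegree k T 2 ∧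
      ForGeneralLine 2 fun L => ∃ (E : Type u) (_ : Field E) (_ : Algebra k E)
        (γ : Fin 3 × Fin 3 → E),
        IsGenericPoint (curve X ζ T L) γ ∧ Algebra.trdeg k E = 1 ∧ IsGonality k E 1 :=
  ⟨surf k, KK k, inferInstance, inferInstance, zeta k, TT k,
    ⟨isClosedSet_surf, isGenericPoint_zeta, by exact_mod_cast trdeg_KK, isSmoothOfDim_surf⟩,
    isMinimalDegree_TT, polQ k, polQ_ne_zero, fun _ hw hli => exists_genericPoint hw hli⟩

end Pool.Agent.H964R2.Gon
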