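import Mathlib

/-!
# Projective varieties, rational maps to projective space, and the curves `C_L`

Elementary (classical) definitions over an algebraically closed field `k`.  The points of the
projective space with coordinates indexed by `ι` are represented by the nonzero vectors `ι → k`;
a subset of the projective space is given by the set of all the vectors representing its points.
-/

namespace Pool.Agent.H964R2.Gon

open MvPolynomial

universe u

variable {k : Type u} [Field k] {ι : Type} [Fintype ι] {K : Type u} [Field K] [Algebra k K]

/-- The polynomial `F` vanishes on the set `A`. -/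
def VanishesOn (F : MvPolynomial ι k) (A : Set (ι → k)) : Prop := ∀ x ∈ A, eval x F = 0

/-- `X` is a (Zariski) closed subset of the projective space: the set of the points where all the
members of a set of homogeneous polynomials vanish. -/
def IsClosedSet (X : Set (ι → k)) : Prop :=
  ∃ S : Set (MvPolynomial ι k), (∀ F ∈ S, ∃ m, F.IsHomogeneous m) ∧
    X = {x | x ≠ 0 ∧ ∀ F ∈ S, eval x F = 0}

/-- The Zariski closure, in the projective space, of a set of points. -/
def zariskiClosure (A : Set (ι → k)) : Set (ι → k) :=
  {x | x ≠ 0 ∧ ∀ (m : ℕ) (F : MvPolynomial ι k), F.IsHomogeneous m → VanishesOn F A →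
    eval x F = 0}

/-- `ζ` is the generic point of `X`, with coordinates in the function field `K` of `X`: a
homogeneous polynomial vanishes at `ζ` if and only if it vanishes on `X` (so that the homogeneous
ideal of `X` is prime, that is, `X` is irreducible), and the field `K` is generated over `k` by the
ratios of the coordinates of `ζ` (so that `K` is the field of the ratios of two homogeneous
polynomials of the same degree, the denominator not vanishing on `X`). -/
structure IsGenericPoint (X : Set (ι → k)) (ζ : ι → K) : Prop where
  ne_zero : ζ ≠ 0
  aeval_eq_zero_iff : ∀ (m : ℕ) (F : MvPolynomial ι k), F.IsHomogeneous m →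
    (aeval ζ F = 0 ↔ VanishesOn F X)
  adjoin_eq_top : IntermediateField.adjoin k {z : K | ∃ i j, z = ζ i / ζ j} = ⊤

/-- `X` is smooth of dimension `n`, by the Jacobian criterion: at each point of `X` there are
`N - n` homogeneous polynomials vanishing on `X` with linearly independent gradients, where
`N = card ι - 1` is the dimension of the projective space. -/
def IsSmoothOfDim (X : Set (ι → k)) (n : ℕ) : Prop :=
  ∀ x ∈ X, ∃ G : Fin (Fintype.card ι - (n + 1)) → MvPolynomial ι k,
    (∀ a, (∃ m, (G a).IsHomogeneous m) ∧ VanishesOn (G a) X) ∧
    LinearIndependent k fun a i => eval x (pderiv i (G a))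

/-- `X` is a smooth projective (integral) variety of dimension `n`, with function field `K` and
generic point `ζ`. -/
structure IsNice (X : Set (ι → k)) (n : ℕ) (ζ : ι → K) : Prop where
  closed : IsClosedSet X
  generic : IsGenericPoint X ζ
  dim : Algebra.trdeg k K = n
  smooth : IsSmoothOfDim X n

/-! A rational map `ψ` from `X` to the `n`-dimensional projective space is given by the nonzero
vector `T : Fin (n + 1) → K` of its homogeneous coordinates, which are members of the function
field `K` of `X`. -/

variable (k) in
/-- The subfield `ψ^* k(ℙⁿ)` of `K`, generated over `k` by the ratios of the coordinates. -/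
def coordField {n : ℕ} (T : Fin (n + 1) → K) : IntermediateField k K :=
  IntermediateField.adjoin k {z : K | ∃ i j, z = T i / T j}

variable (k) in
/-- The rational map `ψ` is dominant: its coordinates satisfy no homogeneous equation. -/
def IsDominant {n : ℕ} (T : Fin (n + 1) → K) : Prop :=
  ∀ (m : ℕ) (F : MvPolynomial (Fin (n + 1)) k), F.IsHomogeneous m → aeval T F = 0 → F = 0

variable (k) in
/-- The rational map `ψ` is dominant of degree `d`. -/
def HasDegree {n : ℕ} (T : Fin (n + 1) → K) (d : ℕ) : Prop :=
  IsDominant k T ∧ FiniteDimensional (coordField k T) K ∧
    Module.finrank (coordField k T) K = d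

variable (k) in
/-- `ψ` is dominant of degree `d` and no dominant rational map has a smaller degree. -/
def IsMinimalDegree {n : ℕ} (T : Fin (n + 1) → K) (d : ℕ) : Prop :=
  HasDegree k T d ∧ ∀ (T' : Fin (n + 1) → K) (d' : ℕ), HasDegree k T' d' → d ≤ d'

/-- The rational map `ψ` is defined at the point `x` of `X`, with value the point represented by
`y`: there are homogeneous polynomials `G 0, …, G n` of the same degree which define `ψ` and whose
values at `x` are the coordinates of `y ≠ 0`. -/
def HasValue (ζ : ι → K) {n : ℕ} (T : Fin (n + 1) → K) (x : ι → k) (y : Fin (n + 1) → k) : Prop :=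
  ∃ (m : ℕ) (G : Fin (n + 1) → MvPolynomial ι k), (∀ i, (G i).IsHomogeneous m) ∧
    (∀ i j, aeval ζ (G i) * T j = aeval ζ (G j) * T i) ∧ y ≠ 0 ∧ ∀ i, y i = eval x (G i)

/-- The curve `C_L`, for the line `L` of the projective space represented by a two-dimensional
subspace `L`: the closure in `X` of the preimage of `L` under `ψ`, taken over the open set where
`ψ` is defined. -/
def curve (X : Set (ι → k)) (ζ : ι → K) {n : ℕ} (T : Fin (n + 1) → K)
    (L : Submodule k (Fin (n + 1) → k)) : Set (ι → k) :=
  zariskiClosure {x | x ∈ X ∧ ∃ y ∈ L, HasValue ζ T x y}

/-- Every line in a nonempty Zariski-open subset of the Grassmannian of the lines in the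
`n`-dimensional projective space has the property `P`.  The open subset is described by a nonzero
polynomial in the coordinates of the two vectors spanning the line. -/
def ForGeneralLine (n : ℕ) (P : Submodule k (Fin (n + 1) → k) → Prop) : Prop :=
  ∃ Q : MvPolynomial (Fin 2 × Fin (n + 1)) k, Q ≠ 0 ∧ ∀ w : Fin 2 → Fin (n + 1) → k,
    eval (fun a => w a.1 a.2) Q ≠ 0 → LinearIndependent k w →
      P (Submodule.span k (Set.range w))

variable (k) in
/-- The gonality of the integral curve with function field `E` is `e`: the least degree of a
nonconstant morphism from its normalization to the projective line, that is, the least degree of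
`E` over `k(f)` for a nonconstant `f ∈ E`. -/
def IsGonality (E : Type u) [Field E] [Algebra k E] (e : ℕ) : Prop :=
  IsLeast {e : ℕ | ∃ f : E, f ∉ Set.range (algebraMap k E) ∧
    FiniteDimensional (IntermediateField.adjoin k {f}) E ∧
    Module.finrank (IntermediateField.adjoin k {f}) E = e} e

end Pool.Agent.H964R2.Gon
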