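import Pool.Agent.H964R2.Gon.Param

/-!
# The function field of the surface, and its first projection to the projective plane
-/

namespace Pool.Agent.H964R2.Gon

open MvPolynomial

universe u

section Ratio

variable {k M : Type*} [Field k] [Field M] [Algebra k M] {ι : Type*}

variable (k) in
/-- The field generated by the ratios of the coordinates of `p`. -/
def ratioField (p : ι → M) : IntermediateField k M :=
  IntermediateField.adjoin k {z | ∃ i j, z = p i / p j}

variable (k) in
/-- The normalised coordinates, as elements of the field of the ratios. -/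
def gen (p : ι → M) (i0 i : ι) : ratioField k p :=
  ⟨p i / p i0, IntermediateField.subset_adjoin _ _ ⟨i, i0, rfl⟩⟩

theorem adjoin_gen (p : ι → M) {i0 : ι} (h : p i0 ≠ 0) :
    IntermediateField.adjoin k {z : ratioField k p | ∃ i j, z = gen k p i0 i / gen k p i0 j} =
      ⊤ := by
  apply IntermediateField.lift_injective
  rw [IntermediateField.lift_adjoin, IntermediateField.lift_top]
  change _ = IntermediateField.adjoin k {z | ∃ i j, z = p i / p j}
  congr 1
  ext z
  constructor
  · rintro ⟨-, ⟨i, j, rfl⟩, rfl⟩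
    refine ⟨i, j, ?_⟩
    change (p i / p i0) / (p j / p i0) = _
    rw [div_div_div_cancel_right₀ h]
  · rintro ⟨i, j, rfl⟩
    refine ⟨gen k p i0 i / gen k p i0 j, ⟨i, j, rfl⟩, ?_⟩
    change (p i / p i0) / (p j / p i0) = _
    rw [div_div_div_cancel_right₀ h]

theorem aeval_gen_eq_zero {σ : Type*} (p : σ → M) {i0 : σ} (h : p i0 ≠ 0) {m : ℕ}
    {F : MvPolynomial σ k} (hF : F.IsHomogeneous m) :
    aeval (gen k p i0) F = 0 ↔ aeval p F = 0 := by
  have h1 : ((aeval (gen k p i0) F : ratioField k p) : M) = (p i0)⁻¹ ^ m * aeval p F := by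
    have h2 := comp_aeval_apply (gen k p i0) (ratioField k p).val F
    rw [IntermediateField.coe_val] at h2
    rw [h2, ← aeval_smul_of_isHomogeneous hF]
    congr 1
    congr 1
    funext i
    change p i / p i0 = _
    rw [div_eq_mul_inv, mul_comm]
  constructor
  · intro h3
    rw [h3] at h1
    have := mul_eq_zero.1 h1.symm
    exact this.resolve_left (pow_ne_zero _ (inv_ne_zero h))
  · intro h3
    rw [h3, mul_zero] at h1
    exact_mod_cast h1

end Ratio

section Field

variable (k : Type u) [Field k]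

/-- The field `k(s, t)`. -/
abbrev M2 : Type u := FractionRing (MvPolynomial (Fin 2) k)

/-- The vector `(1, s, t)`. -/
noncomputable def sM : Fin 3 → M2 k := fun i => algebraMap _ (M2 k) (st k i)

/-- The function field of the surface. -/
noncomputable abbrev KK : IntermediateField k (M2 k) := ratioField k (par (sM k))

/-- The generic point of the surface. -/
noncomputable def zeta : I9 → KK k := gen k (par (sM k)) (0, 0)

/-- The first projection. -/
noncomputable def TT : Fin 3 → KK k := fun i => zeta k (i, 0)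

variable {k}

theorem par_sM (a : I9) : par (sM k) a = algebraMap _ (M2 k) (par (st k) a) :=
  par_map (algebraMap _ (M2 k)) (st k) a

theorem par_sM_eq (a : I9) : par (sM k) a =
    algebraMap _ (M2 k) (st k a.1) ^ 2 * algebraMap _ (M2 k) (c4 (st k) a.2) := by
  rw [par_sM, par, map_mul, map_pow]

theorem st_zero : st k 0 = 1 := rfl

theorem c4_st_zero : c4 (st k) 0 = X 0 * X 1 ^ 4 - X 1 * X 0 ^ 4 := by simp [c4, cr, st]

theorem c4_st_one : c4 (st k) 1 = X 1 - X 1 ^ 4 := by simp [c4, cr, st]

theorem c4_st_rel : c4 (st k) 0 + X 0 ^ 4 * c4 (st k) 1 + X 1 ^ 4 * c4 (st k) 2 = 0 := by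
  simp [c4, cr, st]; ring

variable [CharP k 2]

theorem two_eq (k : Type u) [Field k] [CharP k 2] : (2 : MvPolynomial (Fin 2) k) = 0 :=
  two_eq_zero' (k := k)

theorem pderiv_c4_st_zero : pderiv 0 (c4 (st k) 0) = X 1 ^ 4 := by
  have h := two_eq k
  rw [c4_st_zero]
  have h0 : pderiv (0 : Fin 2) (X 0 : MvPolynomial (Fin 2) k) = 1 := by simp
  have h1 : pderiv (0 : Fin 2) (X 1 : MvPolynomial (Fin 2) k) = 0 := by simp
  simp only [map_sub, Derivation.leibniz, Derivation.leibniz_pow, h0, h1,
    smul_eq_mul, nsmul_eq_mul]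
  push_cast
  linear_combination (-2 * X 1 * X 0 ^ 3) * h

omit [CharP k 2] in
theorem pderiv_c4_st_one : pderiv 0 (c4 (st k) 1) = 0 := by
  rw [c4_st_one]
  simp [Derivation.leibniz_pow, pderiv_X]

theorem c4_st_zero_ne : c4 (st k) 0 ≠ 0 := by
  intro h
  have h1 := pderiv_c4_st_zero (k := k)
  rw [h, map_zero] at h1
  exact pow_ne_zero 4 (X_ne_zero 1) h1.symm

theorem par_sM_zero_ne : par (sM k) (0, 0) ≠ 0 := by
  rw [par_sM]
  have h : par (st k) (0, 0) = c4 (st k) 0 := by simp [par, st]
  rw [h]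
  simpa using c4_st_zero_ne (k := k)

theorem isGenericPoint_zeta [IsAlgClosed k] : IsGenericPoint (surf k) (zeta k) := by
  refine ⟨fun h => ?_, fun m F hF => ?_, adjoin_gen _ par_sM_zero_ne⟩
  · have h1 := congrArg (Subtype.val) (congrFun h (0, 0))
    change par (sM k) (0, 0) / par (sM k) (0, 0) = 0 at h1
    rw [div_self par_sM_zero_ne] at h1
    exact one_ne_zero h1
  · rw [← vanishesOn_surf_iff hF, zeta, aeval_gen_eq_zero _ par_sM_zero_ne hF]
    have h1 : aeval (par (sM k)) F = algebraMap _ (M2 k) (aeval (par (st k)) F) := by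
      have := comp_aeval_apply (par (st k)) (Algebra.ofId (MvPolynomial (Fin 2) k) (M2 k) |>.restrictScalars k) F
      simp only [AlgHom.coe_restrictScalars', Algebra.ofId_apply] at this
      rw [this]
      congr 1
      congr 1
      funext a
      exact par_sM a
    rw [h1]
    simp

theorem TT_val (i : Fin 3) : ((TT k i : KK k) : M2 k) = algebraMap _ (M2 k) (st k i) ^ 2 := by
  change par (sM k) (i, 0) / par (sM k) (0, 0) = _
  rw [div_eq_iff par_sM_zero_ne, par_sM_eq, par_sM_eq, st_zero, map_one]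
  ring

omit [CharP k 2] in
theorem zeta_val (a : I9) : ((zeta k a : KK k) : M2 k) =
    algebraMap _ (M2 k) (st k a.1) ^ 2 * (algebraMap _ (M2 k) (c4 (st k) a.2) /
      algebraMap _ (M2 k) (c4 (st k) 0)) := by
  change par (sM k) a / par (sM k) (0, 0) = _
  rw [par_sM_eq, par_sM_eq, st_zero, map_one]
  ring

theorem TT_dominant [IsAlgClosed k] : IsDominant k (TT k) := by
  intro m F hF h
  have : Infinite k := inferInstance
  have h1 : aeval (fun i => st k i ^ 2) F = 0 := by
    have h2 : ((aeval (TT k) F : KK k) : M2 k) = algebraMap _ (M2 k) (aeval (fun i => st k i ^ 2) F) := by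
      have h3 := comp_aeval_apply (TT k) (KK k).val F
      have h4 := comp_aeval_apply (fun i => st k i ^ 2)
        (Algebra.ofId (MvPolynomial (Fin 2) k) (M2 k) |>.restrictScalars k) F
      simp only [AlgHom.coe_restrictScalars', Algebra.ofId_apply] at h4
      rw [IntermediateField.coe_val] at h3
      rw [h3, h4]
      congr 1
      congr 1
      funext i
      rw [TT_val, map_pow]
    rw [h] at h2
    simpa using h2.symm
  have h2 : ∀ r : Fin 3 → k, r 0 ≠ 0 → eval r F = 0 := by
    intro r hr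
    obtain ⟨a, ha⟩ := IsAlgClosed.exists_pow_nat_eq (r 1 / r 0) (n := 2) two_pos
    obtain ⟨b, hb⟩ := IsAlgClosed.exists_pow_nat_eq (r 2 / r 0) (n := 2) two_pos
    have h3 := congrArg (aeval ![a, b] : MvPolynomial (Fin 2) k →ₐ[k] k) h1
    rw [comp_aeval_apply, map_zero] at h3
    have h4 : r = fun i => r 0 * (aeval ![a, b] : MvPolynomial (Fin 2) k →ₐ[k] k) (st k i ^ 2) := by
      funext i
      fin_cases i <;> simp [st, ha, hb] <;> field_simp
    rw [h4, eval_smul_of_isHomogeneous hF, ← aeval_eq_eval, h3, mul_zero]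
  have h3 : X 0 * F = 0 := by
    apply MvPolynomial.funext
    intro r
    rw [map_mul, eval_X, map_zero]
    by_cases hr : r 0 = 0
    · rw [hr, zero_mul]
    · rw [h2 r hr, mul_zero]
  rw [mul_eq_zero, or_iff_right (X_ne_zero 0)] at h3
  exact h3

theorem c4_st_one_ne : c4 (st k) 1 ≠ 0 := by
  intro h
  have h1 := congrArg (pderiv 1) h
  rw [c4_st_one, map_zero] at h1
  have h0 : pderiv (1 : Fin 2) (X 1 : MvPolynomial (Fin 2) k) = 1 := by simp
  simp only [map_sub, Derivation.leibniz_pow, h0, smul_eq_mul, nsmul_eq_mul] at h1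
  push_cast at h1
  have h2 := two_eq k
  have h3 : (1 : MvPolynomial (Fin 2) k) = 0 := by
    linear_combination h1 + 2 * X 1 ^ 3 * h2
  exact one_ne_zero h3

/-- The function `w = c₁ / c₀`. -/
noncomputable def ww (k : Type u) [Field k] : KK k := zeta k (0, 1)

omit [CharP k 2] in
theorem ww_val : ((ww k : KK k) : M2 k) =
    algebraMap _ (M2 k) (c4 (st k) 1) / algebraMap _ (M2 k) (c4 (st k) 0) := by
  rw [ww, zeta_val, st_zero, map_one]; ring

theorem ww_notMem : ww k ∉ coordField k (TT k) := by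
  intro h
  have h1 : coordField k (TT k) ≤ (constField (M2 k) (pderiv (R := k) (0 : Fin 2))).comap
      (KK k).val := by
    rw [coordField, IntermediateField.adjoin_le_iff]
    rintro z ⟨i, j, rfl⟩
    change ((TT k i / TT k j : KK k) : M2 k) ∈ constField (M2 k) (pderiv (R := k) (0 : Fin 2))
    have h2 : ((TT k i / TT k j : KK k) : M2 k) = algebraMap _ (M2 k) (st k i ^ 2) /
        algebraMap _ (M2 k) (st k j ^ 2) := by
      rw [map_pow, map_pow, ← TT_val, ← TT_val]
      rfl
    have h3 : ∀ i, pderiv (0 : Fin 2) (st k i ^ 2) = 0 := by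
      intro i
      have h4 := two_eq k
      rw [Derivation.leibniz_pow]
      simp only [smul_eq_mul, nsmul_eq_mul]
      push_cast
      rw [h4, zero_mul]
    have h4 : st k j ≠ 0 := by fin_cases j <;> simp [st]
    rw [h2, mem_constField _ (pow_ne_zero 2 h4), h3, h3]
    ring
  have h2 : ((ww k : KK k) : M2 k) ∈ constField (M2 k) (pderiv (R := k) (0 : Fin 2)) := h1 h
  rw [ww_val, mem_constField _ c4_st_zero_ne, pderiv_c4_st_zero, pderiv_c4_st_one,
    zero_mul] at h2
  exact mul_ne_zero c4_st_one_ne (pow_ne_zero 4 (X_ne_zero 1)) h2.symm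

theorem two_M2 (k : Type u) [Field k] [CharP k 2] : (2 : M2 k) = 0 := by
  have := congrArg (algebraMap _ (M2 k)) (two_eq k)
  rwa [map_ofNat, map_zero] at this

theorem den_val : ((TT k 1 : KK k) : M2 k) * ((TT k 2 : KK k) : M2 k) ^ 4 +
    ((TT k 2 : KK k) : M2 k) * ((TT k 1 : KK k) : M2 k) ^ 4 =
    algebraMap _ (M2 k) (c4 (st k) 0) ^ 2 := by
  have h2 := two_M2 k
  have e1 : algebraMap _ (M2 k) (c4 (st k) 0) =
      algebraMap (MvPolynomial (Fin 2) k) (M2 k) (X 0) *
        algebraMap (MvPolynomial (Fin 2) k) (M2 k) (X 1) ^ 4 -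
      algebraMap (MvPolynomial (Fin 2) k) (M2 k) (X 1) *
        algebraMap (MvPolynomial (Fin 2) k) (M2 k) (X 0) ^ 4 := by
    rw [c4_st_zero]; simp only [map_sub, map_mul, map_pow]
  have e3 : st k 1 = (X 0 : MvPolynomial (Fin 2) k) := rfl
  have e4 : st k 2 = (X 1 : MvPolynomial (Fin 2) k) := rfl
  rw [TT_val, TT_val, e1, e3, e4]
  set s := algebraMap _ (M2 k) (X 0 : MvPolynomial (Fin 2) k)
  set t := algebraMap _ (M2 k) (X 1 : MvPolynomial (Fin 2) k)
  linear_combination (s * t ^ 4 * (t * s ^ 4)) * h2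

theorem den_ne : TT k 1 * TT k 2 ^ 4 + TT k 2 * TT k 1 ^ 4 ≠ 0 := by
  intro h
  have h1 := den_val (k := k)
  have h2 := congrArg Subtype.val h
  change ((TT k 1 : KK k) : M2 k) * ((TT k 2 : KK k) : M2 k) ^ 4 +
    ((TT k 2 : KK k) : M2 k) * ((TT k 1 : KK k) : M2 k) ^ 4 = 0 at h2
  rw [h2] at h1
  have h0 : algebraMap _ (M2 k) (c4 (st k) 0) ≠ 0 := by simpa using c4_st_zero_ne (k := k)
  exact pow_ne_zero 2 h0 h1.symm

/-- `w² ∈ k(s², t²)`. -/
theorem ww_sq : ww k ^ 2 * (TT k 1 * TT k 2 ^ 4 + TT k 2 * TT k 1 ^ 4) =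
    TT k 2 + TT k 2 ^ 4 := by
  apply Subtype.ext
  change ((ww k : KK k) : M2 k) ^ 2 * (((TT k 1 : KK k) : M2 k) * ((TT k 2 : KK k) : M2 k) ^ 4 +
    ((TT k 2 : KK k) : M2 k) * ((TT k 1 : KK k) : M2 k) ^ 4) =
    ((TT k 2 : KK k) : M2 k) + ((TT k 2 : KK k) : M2 k) ^ 4
  have h2 := two_M2 k
  have h0 : algebraMap _ (M2 k) (c4 (st k) 0) ≠ 0 := by simpa using c4_st_zero_ne (k := k)
  rw [den_val, ww_val, div_pow, div_mul_cancel₀ _ (pow_ne_zero 2 h0), TT_val]
  have e2 : algebraMap _ (M2 k) (c4 (st k) 1) =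
      algebraMap (MvPolynomial (Fin 2) k) (M2 k) (X 1) -
        algebraMap (MvPolynomial (Fin 2) k) (M2 k) (X 1) ^ 4 := by
    rw [c4_st_one]; simp only [map_sub, map_pow]
  have e4 : st k 2 = X 1 := rfl
  rw [e2, e4]
  set t := algebraMap _ (M2 k) (X 1 : MvPolynomial (Fin 2) k)
  linear_combination (-(t * t ^ 4)) * h2

/-- The generator `ww` generates the function field over `k(s², t²)`. -/
theorem adjoin_ww : IntermediateField.adjoin (coordField k (TT k)) {ww k} = ⊤ := by
  set F₀ := coordField k (TT k) with hF₀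
  have hT : ∀ i, TT k i ∈ F₀ := by
    intro i
    have h0 : TT k 0 = 1 := by
      apply Subtype.ext
      change ((TT k 0 : KK k) : M2 k) = 1
      rw [TT_val, st_zero]; simp
    refine IntermediateField.subset_adjoin _ _ ⟨i, 0, ?_⟩
    rw [h0, div_one]
  have hw : ww k ∈ IntermediateField.adjoin F₀ {ww k} := IntermediateField.mem_adjoin_simple_self _ _
  have hT' : ∀ i, TT k i ∈ IntermediateField.adjoin F₀ {ww k} := fun i =>
    (IntermediateField.adjoin F₀ {ww k}).algebraMap_mem ⟨TT k i, hT i⟩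
  have hz : ∀ j, zeta k (0, j) ∈ IntermediateField.adjoin F₀ {ww k} := by
    intro j
    have h0 : algebraMap _ (M2 k) (c4 (st k) 0) ≠ 0 := by simpa using c4_st_zero_ne (k := k)
    have hj : j = 0 ∨ j = 1 ∨ j = 2 := by fin_cases j <;> simp
    rcases hj with rfl | rfl | rfl
    · have : zeta k (0, 0) = 1 := by
        apply Subtype.ext
        change ((zeta k (0, 0) : KK k) : M2 k) = 1
        rw [zeta_val, div_self h0, st_zero]; simp
      rw [this]
      exact one_mem _
    · exact hw
    · have h1 : zeta k (0, 2) = -(1 + TT k 1 ^ 2 * ww k) / TT k 2 ^ 2 := by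
        apply Subtype.ext
        change ((zeta k (0, 2) : KK k) : M2 k) = -(1 + ((TT k 1 : KK k) : M2 k) ^ 2 *
          ((ww k : KK k) : M2 k)) / ((TT k 2 : KK k) : M2 k) ^ 2
        have h2 : algebraMap _ (M2 k) (st k 2) ≠ 0 := by simp [st]
        rw [zeta_val, ww_val, TT_val, TT_val, st_zero, map_one]
        have h3 := congrArg (algebraMap _ (M2 k)) (c4_st_rel (k := k))
        simp only [map_add, map_mul, map_pow, map_zero] at h3
        have e3 : st k 1 = X 0 := rfl
        have e4 : st k 2 = X 1 := rfl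
        rw [e4] at h2
        rw [e3, e4]
        field_simp
        linear_combination h3
      rw [h1]
      exact div_mem (neg_mem (add_mem (one_mem _) (mul_mem (pow_mem (hT' 1) 2) hw)))
        (pow_mem (hT' 2) 2)
  have hz' : ∀ a, zeta k a ∈ IntermediateField.adjoin F₀ {ww k} := by
    intro a
    have h1 : zeta k a = TT k a.1 * zeta k (0, a.2) := by
      apply Subtype.ext
      change ((zeta k a : KK k) : M2 k) = ((TT k a.1 : KK k) : M2 k) *
        ((zeta k (0, a.2) : KK k) : M2 k)
      rw [zeta_val, zeta_val, TT_val, st_zero, map_one]; ring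
    rw [h1]
    exact mul_mem (hT' _) (hz _)
  have h1 : (⊤ : IntermediateField k (KK k)) ≤
      (IntermediateField.adjoin F₀ {ww k}).restrictScalars k := by
    have h2 := adjoin_gen (k := k) (par (sM k)) (i0 := (0, 0)) par_sM_zero_ne
    rw [← h2, IntermediateField.adjoin_le_iff]
    rintro z ⟨i, j, rfl⟩
    exact div_mem (hz' i) (hz' j)
  rw [eq_top_iff]
  intro z _
  exact h1 (IntermediateField.mem_top)

theorem hasDegree_TT [IsAlgClosed k] : HasDegree k (TT k) 2 := by
  set F₀ := coordField k (TT k) with hF₀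
  have hT : ∀ i, TT k i ∈ F₀ := by
    intro i
    have h0 : TT k 0 = 1 := by
      apply Subtype.ext
      change ((TT k 0 : KK k) : M2 k) = 1
      rw [TT_val, st_zero]; simp
    refine IntermediateField.subset_adjoin _ _ ⟨i, 0, ?_⟩
    rw [h0, div_one]
  have hsq : ww k ^ 2 ∈ F₀ := by
    have h1 := ww_sq (k := k)
    rw [eq_div_of_mul_eq den_ne h1]
    exact div_mem (add_mem (hT 2) (pow_mem (hT 2) 4)) (add_mem (mul_mem (hT 1) (pow_mem (hT 2) 4))
      (mul_mem (hT 2) (pow_mem (hT 1) 4)))
  have hroot : Polynomial.aeval (ww k) (Polynomial.X ^ 2 - Polynomial.C (⟨ww k ^ 2, hsq⟩ : F₀)) = 0 := by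
    simp
  have hint : IsIntegral F₀ (ww k) :=
    ⟨_, Polynomial.monic_X_pow_sub_C _ two_ne_zero, hroot⟩
  have hdeg : (minpoly F₀ (ww k)).natDegree = 2 := by
    apply le_antisymm
    · have h1 := minpoly.dvd F₀ (ww k) hroot
      have h2 := Polynomial.natDegree_le_of_dvd h1
        (Polynomial.monic_X_pow_sub_C _ two_ne_zero).ne_zero
      rwa [Polynomial.natDegree_X_pow_sub_C] at h2
    · rw [minpoly.two_le_natDegree_iff hint]
      rintro ⟨z, hz⟩
      apply ww_notMem (k := k)
      rw [← hz]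
      exact z.2
  refine ⟨TT_dominant, ?_, ?_⟩
  · have := IntermediateField.adjoin.finiteDimensional hint
    rw [adjoin_ww] at this
    exact IntermediateField.topEquiv.toLinearEquiv.finiteDimensional
  · have := IntermediateField.adjoin.finrank hint
    rw [adjoin_ww, hdeg, IntermediateField.finrank_top'] at this
    exact this

end Field

end Pool.Agent.H964R2.Gon
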