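import Pool.Agent.H964R2.Gon.Func

/-!
# The dimension of the surface is two, and its first projection has minimal degree
-/

namespace Pool.Agent.H964R2.Gon

open MvPolynomial

universe u

variable {k : Type u} [Field k] [CharP k 2]

instance charP_M2 : CharP (M2 k) 2 := by
  have : CharP (MvPolynomial (Fin 2) k) 2 := inferInstance
  exact charP_of_injective_algebraMap (IsFractionRing.injective (MvPolynomial (Fin 2) k) (M2 k)) 2

theorem sq_mem (p : MvPolynomial (Fin 2) k) : algebraMap _ (M2 k) p ^ 2 ∈ KK k := by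
  have hX : ∀ i : Fin 2, algebraMap _ (M2 k) (X i : MvPolynomial (Fin 2) k) ^ 2 ∈ KK k := by
    intro i
    fin_cases i
    · have := (TT k 1).2
      rwa [TT_val] at this
    · have := (TT k 2).2
      rwa [TT_val] at this
  induction p using MvPolynomial.induction_on with
  | C a =>
    have : algebraMap _ (M2 k) (C a : MvPolynomial (Fin 2) k) = algebraMap k (M2 k) a := by
      rw [IsScalarTower.algebraMap_apply k (MvPolynomial (Fin 2) k) (M2 k)]; rfl
    rw [this]
    exact pow_mem (algebraMap_mem _ _) 2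
  | add p q hp hq =>
    rw [map_add, CharTwo.add_sq]
    exact add_mem hp hq
  | mul_X p i hp =>
    rw [map_mul, mul_pow]
    exact mul_mem hp (hX i)

theorem sq_mem' (z : M2 k) : z ^ 2 ∈ KK k := by
  obtain ⟨a, b, -, rfl⟩ := IsFractionRing.div_surjective (A := MvPolynomial (Fin 2) k) z
  rw [div_pow]
  exact div_mem (sq_mem a) (sq_mem b)

instance isAlgebraic_KK : Algebra.IsAlgebraic (KK k) (M2 k) := by
  refine ⟨fun z => ⟨Polynomial.X ^ 2 - Polynomial.C ⟨z ^ 2, sq_mem' z⟩,
    (Polynomial.monic_X_pow_sub_C _ two_ne_zero).ne_zero, by simp⟩⟩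

omit [CharP k 2] in
theorem trdeg_M2 : Algebra.trdeg k (M2 k) = 2 := by
  have h1 := trdeg_add_eq (A := M2 k) k (MvPolynomial (Fin 2) k)
  have : Algebra.IsAlgebraic (MvPolynomial (Fin 2) k) (M2 k) :=
    IsLocalization.isAlgebraic (M2 k) (nonZeroDivisors (MvPolynomial (Fin 2) k))
  rw [trdeg_eq_zero (R := MvPolynomial (Fin 2) k) (A := M2 k),
    MvPolynomial.trdeg_of_isDomain] at h1
  rw [← h1]
  simp

theorem trdeg_KK : Algebra.trdeg k (KK k) = 2 := by
  have h1 := trdeg_add_eq (A := M2 k) k (KK k)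
  rw [trdeg_eq_zero (R := KK k) (A := M2 k), trdeg_M2, add_zero] at h1
  exact h1

section Homogenize

variable {k K : Type*} [Field k] [Field K] [Algebra k K]

/-- The homogenization of degree `m` of a polynomial in two variables. -/
noncomputable def homog (m : ℕ) (p : MvPolynomial (Fin 2) k) : MvPolynomial (Fin 3) k :=
  ∑ d ∈ p.support, C (coeff d p) * (X 0 ^ (m - (d 0 + d 1)) * X 1 ^ d 0 * X 2 ^ d 1)

theorem homog_isHomogeneous (p : MvPolynomial (Fin 2) k) :
    (homog p.totalDegree p).IsHomogeneous p.totalDegree := by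
  refine IsHomogeneous.sum _ _ _ fun d hd => ?_
  have h1 : d 0 + d 1 ≤ p.totalDegree := by
    have := le_totalDegree hd
    rwa [Finsupp.sum_fintype _ _ (fun _ => rfl), Fin.sum_univ_two] at this
  have h2 : ((X 0 : MvPolynomial (Fin 3) k) ^ (p.totalDegree - (d 0 + d 1)) * X 1 ^ d 0 *
      X 2 ^ d 1).IsHomogeneous (1 * (p.totalDegree - (d 0 + d 1)) + 1 * d 0 + 1 * d 1) :=
    (((isHomogeneous_X k 0).pow _).mul ((isHomogeneous_X k 1).pow _)).mul
      ((isHomogeneous_X k 2).pow _)
  have h3 : 1 * (p.totalDegree - (d 0 + d 1)) + 1 * d 0 + 1 * d 1 = p.totalDegree := by omega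
  rw [h3] at h2
  exact h2.C_mul _

theorem aeval_homog {A : Type*} [Field A] [Algebra k A] (p : MvPolynomial (Fin 2) k)
    (T : Fin 3 → A) (h0 : T 0 ≠ 0) : aeval T (homog p.totalDegree p) =
      T 0 ^ p.totalDegree * aeval ![T 1 / T 0, T 2 / T 0] p := by
  rw [homog, map_sum]
  conv_rhs => rw [aeval_def, eval₂_eq, Finset.mul_sum]
  refine Finset.sum_congr rfl fun d hd => ?_
  have h1 : d 0 + d 1 ≤ p.totalDegree := by
    have := le_totalDegree hd
    rwa [Finsupp.sum_fintype _ _ (fun _ => rfl), Fin.sum_univ_two] at this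
  obtain ⟨e, he⟩ := Nat.exists_eq_add_of_le h1
  have h2 : ∏ i ∈ d.support, (![T 1 / T 0, T 2 / T 0] i) ^ d i =
      (T 1 / T 0) ^ d 0 * (T 2 / T 0) ^ d 1 := by
    rw [Finset.prod_subset (Finset.subset_univ d.support)
      (fun i _ hi => by rw [Finsupp.notMem_support_iff.1 hi, pow_zero]), Fin.prod_univ_two]
    simp
  rw [h2, he]
  simp only [map_mul, map_pow, aeval_X, algHom_C]
  rw [Nat.add_sub_cancel_left, div_pow, div_pow, pow_add, pow_add]
  field_simp

theorem homog_ne_zero {p : MvPolynomial (Fin 2) k} (hp : p ≠ 0) :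
    homog p.totalDegree p ≠ 0 := by
  intro h
  have h1 := aeval_homog (A := M2 k) p (fun i => algebraMap _ (M2 k) (st k i)) (by simp [st])
  rw [h, map_zero] at h1
  have h2 : (![algebraMap _ (M2 k) (st k 1) / algebraMap _ (M2 k) (st k 0),
      algebraMap _ (M2 k) (st k 2) / algebraMap _ (M2 k) (st k 0)] : Fin 2 → M2 k) =
      fun i => algebraMap (MvPolynomial (Fin 2) k) (M2 k) (X i) := by
    funext i
    fin_cases i <;> simp [st]
  have h3 := comp_aeval_apply (X : Fin 2 → MvPolynomial (Fin 2) k)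
    (Algebra.ofId (MvPolynomial (Fin 2) k) (M2 k) |>.restrictScalars k) p
  simp only [AlgHom.coe_restrictScalars', Algebra.ofId_apply] at h3
  rw [h2, ← h3, st_zero, map_one, one_pow, one_mul, aeval_X_left_apply] at h1
  apply hp
  simpa using h1.symm

end Homogenize

theorem TT_mul (i j : Fin 3) : zeta k (i, j) = TT k i * zeta k (0, j) := by
  apply Subtype.ext
  change ((zeta k (i, j) : KK k) : M2 k) = ((TT k i : KK k) : M2 k) *
    ((zeta k (0, j) : KK k) : M2 k)
  rw [zeta_val, zeta_val, TT_val, st_zero, map_one]; ring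

theorem no_degree_one {T' : Fin 3 → KK k} (h : HasDegree k T' 1) : False := by
  obtain ⟨hdom, hfin, hdeg⟩ := h
  have h0 : T' 0 ≠ 0 := by
    intro h0
    exact X_ne_zero (R := k) (0 : Fin 3) (hdom 1 (X 0) (isHomogeneous_X k 0) (by simpa using h0))
  let φ : MvPolynomial (Fin 2) k →ₐ[k] KK k := aeval ![T' 1 / T' 0, T' 2 / T' 0]
  have hφ : Function.Injective φ := by
    rw [injective_iff_map_eq_zero]
    intro p hp
    by_contra hne
    apply homog_ne_zero hne
    apply hdom _ _ (homog_isHomogeneous p)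
    rw [aeval_homog p T' h0]
    change _ * φ p = 0
    rw [hp, mul_zero]
  let _ : Algebra (MvPolynomial (Fin 2) k) (KK k) := φ.toRingHom.toAlgebra
  have : IsScalarTower k (MvPolynomial (Fin 2) k) (KK k) :=
    IsScalarTower.of_algebraMap_eq fun a => (φ.commutes a).symm
  have : FaithfulSMul (MvPolynomial (Fin 2) k) (KK k) :=
    (faithfulSMul_iff_algebraMap_injective _ _).2 hφ
  have : IsFractionRing (MvPolynomial (Fin 2) k) (KK k) := by
    refine IsFractionRing.of_field _ _ fun z => ?_
    have h1 : coordField k T' = ⊤ := IntermediateField.finrank_eq_one_iff_eq_top.1 hdeg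
    have h2 : coordField k T' ≤ IntermediateField.adjoin k
        (Set.range ![T' 1 / T' 0, T' 2 / T' 0]) := by
      rw [coordField, IntermediateField.adjoin_le_iff]
      rintro w ⟨i, j, rfl⟩
      have h3 : ∀ i, T' i / T' 0 ∈ IntermediateField.adjoin k
          (Set.range ![T' 1 / T' 0, T' 2 / T' 0]) := by
        intro i
        fin_cases i
        · simp only [Fin.zero_eta]
          rw [div_self h0]
          exact one_mem _
        · exact IntermediateField.subset_adjoin _ _ ⟨0, rfl⟩
        · exact IntermediateField.subset_adjoin _ _ ⟨1, rfl⟩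
      have h4 := div_mem (h3 i) (h3 j)
      rwa [div_div_div_cancel_right₀ h0] at h4
    have h3 : z ∈ IntermediateField.adjoin k (Set.range ![T' 1 / T' 0, T' 2 / T' 0]) :=
      h2 (h1 ▸ IntermediateField.mem_top)
    rw [IntermediateField.mem_adjoin_range_iff] at h3
    obtain ⟨r, s, hrs⟩ := h3
    exact ⟨r, s, hrs⟩
  -- the two projections
  have hT0 : TT k 0 = 1 := by
    apply Subtype.ext
    change ((TT k 0 : KK k) : M2 k) = 1
    rw [TT_val, st_zero]; simp
  have hc0 : algebraMap _ (M2 k) (c4 (st k) 0) ≠ 0 := by simpa using c4_st_zero_ne (k := k)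
  refine not_rational (k := k) (K := KK k) (TT k) (fun j => zeta k (0, j)) ?_ ?_ ?_ ?_ ?_
  · intro h
    have h1 := congrFun h 0
    rw [hT0] at h1
    exact one_ne_zero h1
  · intro h
    have h1 : TT k 0 = 0 := congrFun h 0
    rw [hT0] at h1
    exact one_ne_zero h1
  · apply Subtype.ext
    have h1 := map_sum (KK k).val (fun i => TT k i * zeta k (0, i) ^ 2) Finset.univ
    rw [IntermediateField.coe_val] at h1
    rw [h1]
    have h2 : ∀ i, ((TT k i * zeta k (0, i) ^ 2 : KK k) : M2 k) =
        (algebraMap _ (M2 k) (st k i * c4 (st k) i) / algebraMap _ (M2 k) (c4 (st k) 0)) ^ 2 := by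
      intro i
      change ((TT k i : KK k) : M2 k) * ((zeta k (0, i) : KK k) : M2 k) ^ 2 = _
      rw [TT_val, zeta_val, st_zero, map_one, map_mul]; ring
    rw [Finset.sum_congr rfl fun i _ => h2 i, ← CharTwo.sum_sq, ← Finset.sum_div, ← map_sum]
    rw [show ∑ i, st k i * c4 (st k) i = 0 from sum_mul_cr_left _ _]
    simp
  · apply Subtype.ext
    have h1 := map_sum (KK k).val (fun i => TT k i ^ 2 * zeta k (0, i)) Finset.univ
    rw [IntermediateField.coe_val] at h1
    rw [h1]
    have h2 : ∀ i, ((TT k i ^ 2 * zeta k (0, i) : KK k) : M2 k) =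
        algebraMap _ (M2 k) (st k i ^ 4 * c4 (st k) i) / algebraMap _ (M2 k) (c4 (st k) 0) := by
      intro i
      change ((TT k i : KK k) : M2 k) ^ 2 * ((zeta k (0, i) : KK k) : M2 k) = _
      rw [TT_val, zeta_val, st_zero, map_one, map_mul, map_pow]; ring
    rw [Finset.sum_congr rfl fun i _ => h2 i, ← Finset.sum_div, ← map_sum]
    rw [show ∑ i, st k i ^ 4 * c4 (st k) i = 0 from sum_mul_cr_right _ _]
    simp
  · rw [eq_top_iff, ← adjoin_gen (k := k) (par (sM k)) (i0 := (0, 0)) par_sM_zero_ne,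
      IntermediateField.adjoin_le_iff]
    rintro z ⟨i, j, rfl⟩
    change zeta k i / zeta k j ∈ _
    rw [show zeta k i = _ from TT_mul i.1 i.2, show zeta k j = _ from TT_mul j.1 j.2,
      mul_div_mul_comm]
    exact mul_mem (IntermediateField.subset_adjoin _ _ (Or.inl ⟨_, _, rfl⟩))
      (IntermediateField.subset_adjoin _ _ (Or.inr ⟨_, _, rfl⟩))

theorem isMinimalDegree_TT [IsAlgClosed k] : IsMinimalDegree k (TT k) 2 := by
  refine ⟨hasDegree_TT, fun T' d' h => ?_⟩
  have h1 : d' ≠ 1 := by
    rintro rfl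
    exact no_degree_one h
  have h2 : 0 < d' := by
    obtain ⟨-, h2, h3⟩ := h
    rw [← h3]
    exact Module.finrank_pos
  omega

end Pool.Agent.H964R2.Gon
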