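import Mathlib

/-!
# Non-rationality of a surface in characteristic two

Algebraic part: a field `K` over a field `k` of characteristic two, generated by the ratios of two
nonzero vectors `x, y ∈ K³` with `∑ xᵢ yᵢ² = 0` and `∑ xᵢ² yᵢ = 0`, is not purely transcendental
of transcendence degree two.
-/

namespace Pool.Agent.H964R2.Gon

open MvPolynomial

section ConstField

variable {k R K : Type*} [Field k] [CommRing R] [IsDomain R] [Algebra k R] [Field K] [Algebra R K]
  [IsFractionRing R K] [Algebra k K] [IsScalarTower k R K]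

theorem const_aux (D : Derivation k R R) {a b a' b' : R} (hb : b ≠ 0)
    (h : a * b' = a' * b) (hc : D a * b = a * D b) : D a' * b' = a' * D b' := by
  have h2 : D a * b' + a * D b' = D a' * b + a' * D b := by
    have := congrArg D h
    simp only [Derivation.leibniz, smul_eq_mul] at this
    linear_combination this
  have h3 : (D a' * b' - a' * D b') * b ^ 2 = 0 := by
    have h4 : (D a' * b' - a' * D b') * b ^ 2 = (D a * b - a * D b) * b' ^ 2 := by
      linear_combination (-(b * b')) * h2 + (-(b * D b') - b' * D b) * (-h)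
    rw [h4, hc]; ring
  rcases mul_eq_zero.1 h3 with h | h
  · linear_combination h
  · exact absurd (pow_eq_zero_iff (two_ne_zero)|>.1 h) hb

variable (K) in
/-- The field of the constants of a derivation, extended to the fraction field. -/
def constField (D : Derivation k R R) : IntermediateField k K where
  carrier := {z | ∃ a b : R, b ≠ 0 ∧ z = algebraMap R K a / algebraMap R K b ∧ D a * b = a * D b}
  mul_mem' := by
    rintro _ _ ⟨a, b, hb, rfl, h⟩ ⟨a', b', hb', rfl, h'⟩
    refine ⟨a * a', b * b', mul_ne_zero hb hb', by simp [div_mul_div_comm], ?_⟩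
    simp only [Derivation.leibniz, smul_eq_mul]
    linear_combination (a' * b') * h + (a * b) * h'
  add_mem' := by
    rintro _ _ ⟨a, b, hb, rfl, h⟩ ⟨a', b', hb', rfl, h'⟩
    have hbK : algebraMap R K b ≠ 0 := by simpa using hb
    have hbK' : algebraMap R K b' ≠ 0 := by simpa using hb'
    refine ⟨a * b' + a' * b, b * b', mul_ne_zero hb hb', ?_, ?_⟩
    · simp only [map_add, map_mul]
      field_simp
    · simp only [Derivation.leibniz, smul_eq_mul, map_add]
      linear_combination (b' ^ 2) * h + (b ^ 2) * h'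
  algebraMap_mem' := by
    intro c
    refine ⟨algebraMap k R c, 1, one_ne_zero, ?_, by simp⟩
    simp [← IsScalarTower.algebraMap_apply]
  inv_mem' := by
    rintro _ ⟨a, b, hb, rfl, h⟩
    by_cases ha : a = 0
    · subst ha
      exact ⟨0, 1, one_ne_zero, by simp, by simp⟩
    · refine ⟨b, a, ha, by simp, ?_⟩
      linear_combination -h

theorem mem_constField (D : Derivation k R R) {a b : R} (hb : b ≠ 0) :
    algebraMap R K a / algebraMap R K b ∈ constField K D ↔ D a * b = a * D b := by
  constructor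
  · rintro ⟨a', b', hb', h, hc⟩
    have hbK : algebraMap R K b ≠ 0 := by simpa using hb
    have hbK' : algebraMap R K b' ≠ 0 := by simpa using hb'
    rw [div_eq_div_iff hbK hbK', ← map_mul, ← map_mul] at h
    have := IsFractionRing.injective R K h
    exact const_aux D hb' this.symm hc
  · intro h
    exact ⟨a, b, hb, rfl, h⟩

theorem eq_zero_of_constField_eq_top (D : Derivation k R R) (h : constField K D = ⊤) (a : R) :
    D a = 0 := by
  have : algebraMap R K a / algebraMap R K 1 ∈ constField K D := by rw [h]; trivial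
  rw [mem_constField D one_ne_zero] at this
  simpa using this

end ConstField

section Primitive

variable {R K : Type*} [CommRing R] [IsDomain R] [UniqueFactorizationMonoid R] [Field K]
  [Algebra R K] [IsFractionRing R K]

/-- No prime divides all the entries. -/
def Prim (X : Fin 3 → R) : Prop := ∀ p, Prime p → ∃ i, ¬ p ∣ X i

omit [IsDomain R] [UniqueFactorizationMonoid R] in
theorem Prim.sq {X : Fin 3 → R} (h : Prim X) : Prim fun i => X i ^ 2 := by
  intro p hp
  obtain ⟨i, hi⟩ := h p hp
  exact ⟨i, fun h => hi (hp.dvd_of_dvd_pow h)⟩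

theorem Prim.dvd {X : Fin 3 → R} (h : Prim X) {i0 : Fin 3} (hi0 : X i0 ≠ 0) (b : R) :
    ∀ a, (∀ j, b ∣ a * X j) → b ∣ a := by
  induction b using UniqueFactorizationMonoid.induction_on_prime with
  | h₁ =>
    intro a ha
    have := ha i0
    rw [zero_dvd_iff, mul_eq_zero] at this
    rcases this with h | h
    · rw [h]
    · exact absurd h hi0
  | h₂ b hb => exact fun a _ => hb.dvd
  | h₃ b p hb hp ih =>
    intro a ha
    obtain ⟨a', rfl⟩ := ih a fun j => (Dvd.intro_left p rfl).trans (ha j)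
    have h2 : ∀ j, p ∣ a' * X j := by
      intro j
      have := ha j
      rw [mul_comm p b, mul_assoc] at this
      exact (mul_dvd_mul_iff_left hb).1 this
    obtain ⟨i, hi⟩ := h p hp
    rcases hp.dvd_or_dvd (h2 i) with h | h
    · obtain ⟨c, rfl⟩ := h
      exact ⟨c, by ring⟩
    · exact absurd h hi

theorem Prim.exists_mul {X : Fin 3 → R} (h : Prim X) {i0 : Fin 3} (hi0 : X i0 ≠ 0)
    (W : Fin 3 → R) (hW : ∀ i j, W i * X j = W j * X i) : ∃ θ, ∀ i, W i = θ * X i := by
  have h1 : X i0 ∣ W i0 := h.dvd hi0 _ _ fun j => ⟨W j, by rw [hW i0 j]; ring⟩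
  obtain ⟨θ, hθ⟩ := h1
  refine ⟨θ, fun i => ?_⟩
  have := hW i i0
  rw [hθ] at this
  apply mul_right_cancel₀ hi0
  rw [this]; ring

theorem exists_primitive (x : Fin 3 → K) {i0 : Fin 3} (hx : x i0 ≠ 0) :
    ∃ (X : Fin 3 → R) (c : K), c ≠ 0 ∧ (∀ i, x i = c * algebraMap R K (X i)) ∧ Prim X := by
  classical
  let S : Set R := {r | ∃ (A : Fin 3 → R) (c : K), c ≠ 0 ∧ (∀ i, x i = c * algebraMap R K (A i)) ∧
    A i0 = r}
  have hS : S.Nonempty := by
    obtain ⟨b, hb⟩ := IsLocalization.exist_integer_multiples_of_finset (nonZeroDivisors R)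
      (Finset.univ.image x)
    have hb0 : algebraMap R K b ≠ 0 := by
      simpa using nonZeroDivisors.ne_zero b.2
    choose A hA using fun i => hb (x i) (Finset.mem_image_of_mem _ (Finset.mem_univ i))
    refine ⟨A i0, A, (algebraMap R K b)⁻¹, inv_ne_zero hb0, fun i => ?_, rfl⟩
    rw [hA i, Algebra.smul_def]
    field_simp
  obtain ⟨r, ⟨A, c, hc, hA, hr⟩, hmin⟩ :=
    (wellFounded_dvdNotUnit (α := R)).has_min S hS
  refine ⟨A, c, hc, hA, ?_⟩
  intro p hp
  by_contra hcon
  push Not at hcon
  choose B hB using hcon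
  have hpK : algebraMap R K p ≠ 0 := by simpa using hp.ne_zero
  refine hmin (B i0) ⟨B, c * algebraMap R K p, mul_ne_zero hc hpK, fun i => ?_, rfl⟩ ?_
  · rw [hA i, hB i, map_mul]; ring
  · refine ⟨?_, p, hp.not_isUnit, ?_⟩
    · intro h0
      apply hx
      rw [hA i0, hB i0, h0]
      simp
    · rw [← hr, hB i0]; ring

end Primitive

section Degree

variable {k : Type*} [Field k] {σ : Type*}

theorem degree_succ_le_of_mem_support_pderiv (f : MvPolynomial σ k) (i : σ)
    {m : σ →₀ ℕ} (hm : m ∈ (pderiv i f).support) : m.degree + 1 ≤ f.totalDegree := by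
  rw [mem_support_iff, coeff_pderiv] at hm
  have h1 : coeff (m + Finsupp.single i 1) f ≠ 0 := left_ne_zero_of_mul hm
  have h2 := le_totalDegree (mem_support_iff.2 h1)
  have h3 : (m + Finsupp.single i 1).degree = m.degree + 1 := by
    rw [map_add, Finsupp.degree_single]
  rw [← h3]
  exact h2

theorem totalDegree_pderiv_le (f : MvPolynomial σ k) (i : σ) :
    (pderiv i f).totalDegree ≤ f.totalDegree - 1 := by
  rw [totalDegree]
  refine Finset.sup_le fun m hm => ?_
  have := degree_succ_le_of_mem_support_pderiv f i hm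
  have h : (m.sum fun _ e => e) = m.degree := rfl
  rw [h]
  omega

theorem pderiv_eq_zero_of_totalDegree (f : MvPolynomial σ k) (i : σ) (h : f.totalDegree = 0) :
    pderiv i f = 0 := by
  by_contra hne
  obtain ⟨m, hm⟩ := (Finset.nonempty_iff_ne_empty.2 (by simpa using hne) :
    (pderiv i f).support.Nonempty)
  have := degree_succ_le_of_mem_support_pderiv f i hm
  omega

theorem totalDegree_wronskian {α : ℕ} (f g : MvPolynomial σ k) (i : σ) (hf : f.totalDegree ≤ α)
    (hg : g.totalDegree ≤ α) (hne : f * pderiv i g - g * pderiv i f ≠ 0) :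
    (f * pderiv i g - g * pderiv i f).totalDegree + 1 ≤ 2 * α := by
  rcases Nat.eq_zero_or_pos α with h0 | hpos
  · subst h0
    exfalso
    apply hne
    rw [pderiv_eq_zero_of_totalDegree f i (by omega), pderiv_eq_zero_of_totalDegree g i (by omega)]
    simp
  · have h1 := totalDegree_sub (f * pderiv i g) (g * pderiv i f)
    have h2 := totalDegree_mul f (pderiv i g)
    have h3 := totalDegree_mul g (pderiv i f)
    have h4 := totalDegree_pderiv_le f i
    have h5 := totalDegree_pderiv_le g i
    have h6 : max (f * pderiv i g).totalDegree (g * pderiv i f).totalDegree ≤ 2 * α - 1 := by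
      apply max_le <;> omega
    omega

end Degree

section Cross

/-- The cross product. -/
def cr {A : Type*} [CommRing A] (u v : Fin 3 → A) : Fin 3 → A :=
  ![u 1 * v 2 - u 2 * v 1, u 2 * v 0 - u 0 * v 2, u 0 * v 1 - u 1 * v 0]

theorem cr_mul_eq {A : Type*} [CommRing A] (u v n : Fin 3 → A) (hu : ∑ i, u i * n i = 0)
    (hv : ∑ i, v i * n i = 0) (i j : Fin 3) : cr u v i * n j = cr u v j * n i := by
  rw [Fin.sum_univ_three] at hu hv
  fin_cases i <;> fin_cases j <;> simp [cr] <;>
    first
    | ring1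
    | linear_combination (v 0) * hu - (u 0) * hv
    | linear_combination (-v 0) * hu + (u 0) * hv
    | linear_combination (v 1) * hu - (u 1) * hv
    | linear_combination (-v 1) * hu + (u 1) * hv
    | linear_combination (v 2) * hu - (u 2) * hv
    | linear_combination (-v 2) * hu + (u 2) * hv

end Cross

section Main

variable {k K : Type*} [Field k] [CharP k 2] [Field K] [Algebra k K]
  [Algebra (MvPolynomial (Fin 2) k) K] [IsScalarTower k (MvPolynomial (Fin 2) k) K]
  [IsFractionRing (MvPolynomial (Fin 2) k) K]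

theorem two_eq_zero' : (2 : MvPolynomial (Fin 2) k) = 0 := by
  have : CharP (MvPolynomial (Fin 2) k) 2 := inferInstance
  exact CharTwo.two_eq_zero

/-- If the two vectors `X, Y` satisfy `∑ Xᵢ Yᵢ² = 0` then `X × DX = θ Y²`. -/
theorem exists_theta (X Y : Fin 3 → MvPolynomial (Fin 2) k) (hY : Prim Y) {i0 : Fin 3} (hi0 : Y i0 ≠ 0)
    (h : ∑ i, X i * Y i ^ 2 = 0) (D : Derivation k (MvPolynomial (Fin 2) k) (MvPolynomial (Fin 2) k)) :
    ∃ θ : MvPolynomial (Fin 2) k, ∀ i, cr X (fun j => D (X j)) i = θ * Y i ^ 2 := by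
  have hD : ∑ i, D (X i) * Y i ^ 2 = 0 := by
    have h2 := congrArg D h
    rw [map_sum, map_zero] at h2
    rw [← h2]
    refine Finset.sum_congr rfl fun i _ => ?_
    rw [Derivation.leibniz, Derivation.leibniz_pow]
    simp only [smul_eq_mul, nsmul_eq_mul]
    have := two_eq_zero' (k := k)
    push_cast
    linear_combination (-(X i) * (Y i) * D (Y i)) * this
  exact hY.sq.exists_mul (i0 := i0) (pow_ne_zero 2 hi0) _ fun i j => cr_mul_eq _ _ _ h hD i j

omit [CharP k 2] in
theorem const_of_cr_eq_zero (X : Fin 3 → MvPolynomial (Fin 2) k) (D : Derivation k (MvPolynomial (Fin 2) k) (MvPolynomial (Fin 2) k))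
    (h : ∀ i, cr X (fun j => D (X j)) i = 0) (i j : Fin 3) :
    algebraMap (MvPolynomial (Fin 2) k) K (X i) / algebraMap (MvPolynomial (Fin 2) k) K (X j) ∈ constField K D := by
  by_cases hj : X j = 0
  · rw [hj, map_zero, div_zero]
    exact zero_mem _
  rw [mem_constField D hj]
  have h0 := h 0
  have h1 := h 1
  have h2 := h 2
  simp only [cr, Matrix.cons_val] at h0 h1 h2
  fin_cases i <;> fin_cases j <;> simp only [Fin.zero_eta, Fin.mk_one, Fin.reduceFinMk] <;>
    first
    | ring1
    | linear_combination h0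
    | linear_combination -h0
    | linear_combination h1
    | linear_combination -h1
    | linear_combination h2
    | linear_combination -h2

omit [CharP k 2] in
theorem theta_degree (X Y : Fin 3 → MvPolynomial (Fin 2) k) (α β : ℕ) (hα : ∀ i, (X i).totalDegree ≤ α)
    {j0 : Fin 3} (hj0 : Y j0 ≠ 0) (hβ : (Y j0).totalDegree = β) (a : Fin 2) (θ : MvPolynomial (Fin 2) k)
    (hθ : ∀ i, cr X (fun j => pderiv a (X j)) i = θ * Y i ^ 2) (hne : θ ≠ 0) :
    2 * β + 1 ≤ 2 * α := by
  have h1 : θ * Y j0 ^ 2 ≠ 0 := mul_ne_zero hne (pow_ne_zero 2 hj0)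
  have h2 : (θ * Y j0 ^ 2).totalDegree = θ.totalDegree + 2 * β := by
    rw [totalDegree_mul_of_isDomain hne (pow_ne_zero 2 hj0), sq,
      totalDegree_mul_of_isDomain hj0 hj0, hβ]
    ring
  have h3 : (cr X (fun j => pderiv a (X j)) j0).totalDegree + 1 ≤ 2 * α := by
    have h4 := hθ j0
    rw [← h4] at h1
    fin_cases j0
    · exact totalDegree_wronskian (X 1) (X 2) a (hα 1) (hα 2) h1
    · exact totalDegree_wronskian (X 2) (X 0) a (hα 2) (hα 0) h1
    · exact totalDegree_wronskian (X 0) (X 1) a (hα 0) (hα 1) h1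
  rw [hθ j0, h2] at h3
  omega

theorem core (X Y : Fin 3 → MvPolynomial (Fin 2) k)
    (htop : IntermediateField.adjoin k ({z | ∃ i j, z = algebraMap (MvPolynomial (Fin 2) k) K (X i) / algebraMap (MvPolynomial (Fin 2) k) K (X j)} ∪
      {z : K | ∃ i j, z = algebraMap (MvPolynomial (Fin 2) k) K (Y i) / algebraMap (MvPolynomial (Fin 2) k) K (Y j)}) = ⊤)
    (hX0 : ∀ (a : Fin 2) i, cr X (fun j => pderiv a (X j)) i = 0)
    (hY : ∀ a : Fin 2, ∃ θ : MvPolynomial (Fin 2) k, ∀ i, cr Y (fun j => pderiv a (Y j)) i = θ * X i ^ 2) : False := by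
  obtain ⟨θ₀, h₀⟩ := hY 0
  obtain ⟨θ₁, h₁⟩ := hY 1
  have key : ∀ D : Derivation k (MvPolynomial (Fin 2) k) (MvPolynomial (Fin 2) k), (∀ i, cr X (fun j => D (X j)) i = 0) →
      (∀ i, cr Y (fun j => D (Y j)) i = 0) → ∀ a, D a = 0 := by
    intro D h1 h2 a
    apply eq_zero_of_constField_eq_top (K := K) D
    rw [eq_top_iff, ← htop, IntermediateField.adjoin_le_iff]
    rintro z (⟨i, j, rfl⟩ | ⟨i, j, rfl⟩)
    · exact const_of_cr_eq_zero X D h1 i j
    · exact const_of_cr_eq_zero Y D h2 i j
  have hD := key (θ₁ • pderiv 0 - θ₀ • pderiv 1) (fun i => by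
      have e0 := hX0 0 i
      have e1 := hX0 1 i
      simp only [cr, Derivation.sub_apply, Derivation.smul_apply, smul_eq_mul] at e0 e1 ⊢
      fin_cases i <;> simp only [Matrix.cons_val, Fin.zero_eta, Fin.mk_one, Fin.reduceFinMk]
        at e0 e1 ⊢ <;> linear_combination θ₁ * e0 - θ₀ * e1) (fun i => by
      have e0 := h₀ i
      have e1 := h₁ i
      simp only [cr, Derivation.sub_apply, Derivation.smul_apply, smul_eq_mul] at e0 e1 ⊢
      fin_cases i <;> simp only [Matrix.cons_val, Fin.zero_eta, Fin.mk_one, Fin.reduceFinMk]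
        at e0 e1 ⊢ <;> linear_combination θ₁ * e0 - θ₀ * e1)
  have hθ₁ : θ₁ = 0 := by
    have := hD (MvPolynomial.X 0)
    simpa [Derivation.sub_apply, pderiv_X] using this
  have := key (pderiv 0) (hX0 0) (fun i => by
    have hθ₀ : θ₀ = 0 := by
      have := hD (MvPolynomial.X 1)
      simpa [Derivation.sub_apply, pderiv_X] using this
    rw [h₀ i, hθ₀, zero_mul]) (MvPolynomial.X 0)
  simp at this

omit [CharP k 2] in
theorem exists_max (X : Fin 3 → MvPolynomial (Fin 2) k) {i0 : Fin 3} (h : X i0 ≠ 0) :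
    ∃ i1, X i1 ≠ 0 ∧ ∀ i, (X i).totalDegree ≤ (X i1).totalDegree := by
  classical
  obtain ⟨i1, h1, h2⟩ := Finset.exists_max_image (Finset.univ.filter fun i => X i ≠ 0)
    (fun i => (X i).totalDegree) ⟨i0, by simpa using h⟩
  refine ⟨i1, by simpa using h1, fun i => ?_⟩
  by_cases hi : X i = 0
  · rw [hi]; simp
  · exact h2 i (by simpa using hi)

theorem not_rational (x y : Fin 3 → K) (hx : x ≠ 0) (hy : y ≠ 0)
    (h1 : ∑ i, x i * y i ^ 2 = 0) (h2 : ∑ i, x i ^ 2 * y i = 0)
    (htop : IntermediateField.adjoin k ({z | ∃ i j, z = x i / x j} ∪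
      {z | ∃ i j, z = y i / y j}) = ⊤) : False := by
  obtain ⟨i0, hi0⟩ := Function.ne_iff.1 hx
  obtain ⟨j0, hj0⟩ := Function.ne_iff.1 hy
  obtain ⟨X, c, hc, hX, hXp⟩ := exists_primitive (R := MvPolynomial (Fin 2) k) x hi0
  obtain ⟨Y, d, hd, hY, hYp⟩ := exists_primitive (R := MvPolynomial (Fin 2) k) y hj0
  have hinj := IsFractionRing.injective (MvPolynomial (Fin 2) k) K
  have e1 : ∑ i, X i * Y i ^ 2 = 0 := by
    apply hinj
    have : (c * d ^ 2) * ∑ i, algebraMap (MvPolynomial (Fin 2) k) K (X i) * algebraMap (MvPolynomial (Fin 2) k) K (Y i) ^ 2 = 0 := by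
      rw [← h1, Finset.mul_sum]
      refine Finset.sum_congr rfl fun i _ => ?_
      rw [hX i, hY i]; ring
    rw [mul_eq_zero, or_iff_right (mul_ne_zero hc (pow_ne_zero 2 hd))] at this
    simpa using this
  have e2 : ∑ i, Y i * X i ^ 2 = 0 := by
    apply hinj
    have : (d * c ^ 2) * ∑ i, algebraMap (MvPolynomial (Fin 2) k) K (Y i) * algebraMap (MvPolynomial (Fin 2) k) K (X i) ^ 2 = 0 := by
      rw [← h2, Finset.mul_sum]
      refine Finset.sum_congr rfl fun i _ => ?_
      rw [hX i, hY i]; ring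
    rw [mul_eq_zero, or_iff_right (mul_ne_zero hd (pow_ne_zero 2 hc))] at this
    simpa using this
  have hXi : X i0 ≠ 0 := by
    intro h
    apply hi0
    rw [hX i0, h]; simp
  have hYj : Y j0 ≠ 0 := by
    intro h
    apply hj0
    rw [hY j0, h]; simp
  have hX' : {z | ∃ i j, z = x i / x j} =
      {z | ∃ i j, z = algebraMap (MvPolynomial (Fin 2) k) K (X i) / algebraMap (MvPolynomial (Fin 2) k) K (X j)} := by
    ext z
    refine exists_congr fun i => exists_congr fun j => ?_
    rw [hX i, hX j, mul_div_mul_left _ _ hc]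
  have hY' : {z | ∃ i j, z = y i / y j} =
      {z | ∃ i j, z = algebraMap (MvPolynomial (Fin 2) k) K (Y i) / algebraMap (MvPolynomial (Fin 2) k) K (Y j)} := by
    ext z
    refine exists_congr fun i => exists_congr fun j => ?_
    rw [hY i, hY j, mul_div_mul_left _ _ hd]
  rw [hX', hY'] at htop
  obtain ⟨i1, hi1, hi1'⟩ := exists_max X hXi
  obtain ⟨j1, hj1, hj1'⟩ := exists_max Y hYj
  choose θ hθ using fun D => exists_theta X Y hYp hYj e1 D
  choose η hη using fun D => exists_theta Y X hXp hXi e2 D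
  by_cases hcase : ∀ a : Fin 2, θ (pderiv a) = 0
  · refine core X Y htop (fun a i => ?_) fun a => ⟨η (pderiv a), hη (pderiv a)⟩
    rw [hθ (pderiv a) i, hcase a, zero_mul]
  · push Not at hcase
    obtain ⟨a, ha⟩ := hcase
    have d1 := theta_degree X Y _ _ hi1' hj1 rfl a _ (hθ (pderiv a)) ha
    rw [Set.union_comm] at htop
    refine core Y X htop (fun b i => ?_) fun a => ⟨θ (pderiv a), hθ (pderiv a)⟩
    rw [hη (pderiv b) i]
    by_cases hb : η (pderiv b) = 0
    · rw [hb, zero_mul]
    · have d2 := theta_degree Y X _ _ hj1' hi1 rfl b _ (hη (pderiv b)) hb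
      omega

end Main

end Pool.Agent.H964R2.Gon
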