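import Pool.Agent.H964R2.Gon.Defs
import Pool.Agent.H964R2.Gon.NonRat

/-!
# The surface and its parametrisation
-/

namespace Pool.Agent.H964R2.Gon

open MvPolynomial

universe u

/-- The index set of the nine coordinates. -/
abbrev I9 := Fin 3 × Fin 3

section Par

variable {A B : Type*} [CommRing A] [CommRing B]

/-- The vector `r × r⁴`. -/
def c4 (r : Fin 3 → A) : Fin 3 → A := cr r fun i => r i ^ 4

/-- The parametrisation `r ↦ r² ⊗ (r × r⁴)`. -/
def par (r : Fin 3 → A) : I9 → A := fun a => r a.1 ^ 2 * c4 r a.2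

theorem cr_map (φ : A →+* B) (u v : Fin 3 → A) (j : Fin 3) :
    cr (fun i => φ (u i)) (fun i => φ (v i)) j = φ (cr u v j) := by
  fin_cases j <;> simp [cr]

theorem c4_map (φ : A →+* B) (r : Fin 3 → A) (j : Fin 3) :
    c4 (fun i => φ (r i)) j = φ (c4 r j) := by
  have := cr_map φ r (fun i => r i ^ 4) j
  simpa [c4] using this

theorem par_map (φ : A →+* B) (r : Fin 3 → A) (a : I9) :
    par (fun i => φ (r i)) a = φ (par r a) := by
  simp only [par, c4_map, map_mul, map_pow]

theorem c4_smul (c : A) (r : Fin 3 → A) (j : Fin 3) :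
    c4 (fun i => c * r i) j = c ^ 5 * c4 r j := by
  fin_cases j <;> simp [c4, cr] <;> ring

theorem par_smul (c : A) (r : Fin 3 → A) (a : I9) :
    par (fun i => c * r i) a = c ^ 7 * par r a := by
  simp only [par, c4_smul]; ring

theorem cr_bilin (a b c d : Fin 3 → A) (e : A) (j : Fin 3) :
    cr (fun i => a i + e * b i) (fun i => c i + e ^ 4 * d i) j =
      cr a c j + e * cr b c j + e ^ 4 * cr a d j + e ^ 5 * cr b d j := by
  fin_cases j <;> simp [cr] <;> ring

theorem sum_mul_cr_left (u v : Fin 3 → A) : ∑ i, u i * cr u v i = 0 := by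
  rw [Fin.sum_univ_three]; simp [cr]; ring

theorem sum_mul_cr_right (u v : Fin 3 → A) : ∑ i, v i * cr u v i = 0 := by
  rw [Fin.sum_univ_three]; simp [cr]; ring

end Par

section Homog

variable {k : Type*} [Field k] {σ : Type*} {A : Type*} [CommRing A] [Algebra k A]

theorem aeval_smul_of_isHomogeneous {m : ℕ} {F : MvPolynomial σ k} (hF : F.IsHomogeneous m)
    (c : A) (z : σ → A) : aeval (fun i => c * z i) F = c ^ m * aeval z F := by
  rw [aeval_def, aeval_def, eval₂_eq, eval₂_eq, Finset.mul_sum]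
  refine Finset.sum_congr rfl fun d hd => ?_
  have h1 : d.degree = m := by
    have := hF (mem_support_iff.1 hd)
    rwa [Finsupp.degree_eq_weight_one]
  simp_rw [mul_pow]
  rw [Finset.prod_mul_distrib, Finset.prod_pow_eq_pow_sum]
  have h2 : ∑ i ∈ d.support, d i = m := h1
  rw [h2]; ring

theorem eval_smul_of_isHomogeneous {m : ℕ} {F : MvPolynomial σ k} (hF : F.IsHomogeneous m)
    (c : k) (z : σ → k) : eval (fun i => c * z i) F = c ^ m * eval z F := by
  have := aeval_smul_of_isHomogeneous (A := k) hF c z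
  rwa [aeval_eq_eval, aeval_eq_eval] at this

end Homog

section Surface

variable (k : Type u) [Field k]

/-- The surface `∑ xᵢ yᵢ² = ∑ xᵢ² yᵢ = 0` in `ℙ² × ℙ²`, in the Segre embedding. -/
def surf : Set (I9 → k) :=
  {z | z ≠ 0 ∧ (∀ i j a b, z (i, j) * z (a, b) = z (i, b) * z (a, j)) ∧
    (∀ l, ∑ i, z (i, i) * z (l, i) = 0) ∧ ∀ l, ∑ i, z (i, i) * z (i, l) = 0}

variable {k}

theorem surf_of_tensor {x y : Fin 3 → k} (hne : (fun a : I9 => x a.1 * y a.2) ≠ 0)
    (h1 : ∑ i, x i * y i ^ 2 = 0) (h2 : ∑ i, x i ^ 2 * y i = 0) :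
    (fun a : I9 => x a.1 * y a.2) ∈ surf k := by
  refine ⟨hne, fun i j a b => by ring, fun l => ?_, fun l => ?_⟩
  · have : ∑ i, x i * y i * (x l * y i) = x l * ∑ i, x i * y i ^ 2 := by
      rw [Finset.mul_sum]; exact Finset.sum_congr rfl fun i _ => by ring
    simpa [h1] using this
  · have : ∑ i, x i * y i * (x i * y l) = y l * ∑ i, x i ^ 2 * y i := by
      rw [Finset.mul_sum]; exact Finset.sum_congr rfl fun i _ => by ring
    simpa [h2] using this

theorem tensor_of_surf {z : I9 → k} (hz : z ∈ surf k) {p q : Fin 3} (hpq : z (p, q) ≠ 0) :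
    ∃ x y : Fin 3 → k, (∀ i, x i = z (i, q)) ∧ y q = 1 ∧ (∀ a, z a = x a.1 * y a.2) ∧
      ∑ i, x i * y i ^ 2 = 0 ∧ ∑ i, x i ^ 2 * y i = 0 := by
  obtain ⟨-, hm, h1, h2⟩ := hz
  have hzz : ∀ i j, z (i, j) = z (i, q) * (z (p, j) / z (p, q)) := by
    intro i j
    field_simp
    rw [hm i j p q]
  refine ⟨fun i => z (i, q), fun j => z (p, j) / z (p, q), fun i => rfl, div_self hpq,
    fun a => hzz a.1 a.2, ?_, ?_⟩
  · have h := h1 p
    have e : ∑ i, z (i, i) * z (p, i) = z (p, q) * ∑ i, z (i, q) * (z (p, i) / z (p, q)) ^ 2 := by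
      rw [Finset.mul_sum]
      refine Finset.sum_congr rfl fun i _ => ?_
      rw [hzz i i]
      field_simp
    rw [e, mul_eq_zero, or_iff_right hpq] at h
    exact h
  · have h := h2 q
    have e : ∑ i, z (i, i) * z (i, q) = ∑ i, z (i, q) ^ 2 * (z (p, i) / z (p, q)) := by
      refine Finset.sum_congr rfl fun i _ => ?_
      rw [hzz i i]
      ring
    rw [e] at h
    exact h

end Surface

section CharTwo

variable {k : Type u} [Field k] [CharP k 2]

theorem par_mem_surf (r : Fin 3 → k) (h : par r ≠ 0) : par r ∈ surf k := by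
  have e1 : ∑ i, r i ^ 2 * c4 r i ^ 2 = 0 := by
    have := sum_mul_cr_left r fun i => r i ^ 4
    have h2 : (∑ i, r i * c4 r i) ^ 2 = 0 := by
      rw [show ∑ i, r i * c4 r i = 0 from this]; simp
    rw [CharTwo.sum_sq] at h2
    rw [← h2]
    exact Finset.sum_congr rfl fun i _ => by ring
  have e2 : ∑ i, (r i ^ 2) ^ 2 * c4 r i = 0 := by
    rw [← sum_mul_cr_right r fun i => r i ^ 4]
    exact Finset.sum_congr rfl fun i _ => by rw [c4]; ring
  exact surf_of_tensor h e1 e2

omit [CharP k 2] in
theorem exists_cr_eq {w y : Fin 3 → k} (hw : w ≠ 0) (h : ∑ i, w i * y i = 0) :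
    ∃ v, ∀ i, cr v w i = y i := by
  obtain ⟨j, hj⟩ := Function.ne_iff.1 hw
  rw [Fin.sum_univ_three] at h
  have hj' : w j ≠ 0 := hj
  fin_cases j
  · simp only [Fin.zero_eta] at hj'
    refine ⟨![0, -(y 2) / w 0, y 1 / w 0], fun i => ?_⟩
    fin_cases i <;> simp [cr] <;> field_simp
    linear_combination -h
  · simp only [Fin.mk_one] at hj'
    refine ⟨![y 2 / w 1, 0, -(y 0) / w 1], fun i => ?_⟩
    fin_cases i <;> simp [cr] <;> field_simp
    linear_combination -h
  · simp only [Fin.reduceFinMk] at hj'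
    refine ⟨![-(y 1) / w 2, y 0 / w 2, 0], fun i => ?_⟩
    fin_cases i <;> simp [cr] <;> field_simp
    linear_combination -h

omit [CharP k 2] in
theorem point_mem_surf : (fun a : I9 => (if a.1 = 0 then (1 : k) else 0) * (if a.2 = 1 then 1 else 0)) ∈
    surf k := by
  refine surf_of_tensor (x := fun i => if i = 0 then (1 : k) else 0)
    (y := fun i => if i = 1 then 1 else 0) ?_ ?_ ?_
  · intro h
    have := congrFun h (0, 1)
    simp at this
  · simp
  · simp

theorem eval_par_eq_zero {m : ℕ} {F : MvPolynomial I9 k} (hF : F.IsHomogeneous m)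
    (h : VanishesOn F (surf k)) (r : Fin 3 → k) : eval (par r) F = 0 := by
  by_cases h0 : par r = 0
  · have := eval_smul_of_isHomogeneous hF 0 (fun a : I9 => (if a.1 = 0 then (1 : k) else 0) *
      (if a.2 = 1 then 1 else 0))
    rw [h _ point_mem_surf, mul_zero] at this
    rw [h0, ← this]
    congr 1
    congr 1
    funext a
    simp
  · exact h _ (par_mem_surf r h0)

theorem four_add {A : Type*} [CommRing A] [CharP A 2] (a b : A) :
    (a + b) ^ 4 = a ^ 4 + b ^ 4 := by
  have := add_pow_char_pow (R := A) (p := 2) (n := 2) a b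
  simpa using this

theorem vanishesOn_of_eval_par [IsAlgClosed k] {m : ℕ} {F : MvPolynomial I9 k}
    (hF : F.IsHomogeneous m) (h : ∀ r : Fin 3 → k, eval (par r) F = 0) :
    VanishesOn F (surf k) := by
  intro z hz
  obtain ⟨⟨p, q⟩, hpq⟩ := Function.ne_iff.1 hz.1
  obtain ⟨x, y, hx, hy, hzxy, h1, h2⟩ := tensor_of_surf hz hpq
  choose r hr using fun i => IsAlgClosed.exists_pow_nat_eq (x i) (n := 2) two_pos
  have e1 : ∑ i, r i * y i = 0 := by
    have h3 : (∑ i, r i * y i) ^ 2 = 0 := by
      rw [CharTwo.sum_sq, ← h1]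
      exact Finset.sum_congr rfl fun i _ => by rw [← hr i]; ring
    exact pow_eq_zero_iff (two_ne_zero) |>.1 h3
  have e2 : ∑ i, r i ^ 4 * y i = 0 := by
    rw [← h2]
    exact Finset.sum_congr rfl fun i _ => by rw [← hr i]; ring
  by_cases hc : c4 r = 0
  · have hr0 : (fun i => r i ^ 4) ≠ 0 := by
      intro h0
      apply hpq
      have := congrFun h0 p
      rw [hzxy, ← hr p]
      have h5 : r p = 0 := pow_eq_zero_iff (four_ne_zero) |>.1 this
      rw [h5]; simp
    obtain ⟨v, hv⟩ := exists_cr_eq hr0 e2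
    -- the curve `r + ε v`
    let ε : Polynomial k := Polynomial.X
    let R : Fin 3 → Polynomial k := fun i => Polynomial.C (r i) + ε * Polynomial.C (v i)
    let Y : Fin 3 → Polynomial k := fun j => Polynomial.C (y j) +
      ε ^ 3 * (Polynomial.C (cr r (fun i => v i ^ 4) j) +
        ε * Polynomial.C (cr v (fun i => v i ^ 4) j))
    have hR : ∀ j, c4 R j = ε * Y j := by
      intro j
      have hc' : cr r (fun i => r i ^ 4) j = 0 := congrFun hc j
      have h4 : c4 R j = cr (fun i => Polynomial.C (r i) + ε * Polynomial.C (v i))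
          (fun i => Polynomial.C (r i ^ 4) + ε ^ 4 * Polynomial.C (v i ^ 4)) j := by
        rw [c4]
        congr 1
        funext i
        simp only [R, four_add, mul_pow, map_pow]
      rw [h4, cr_bilin, cr_map Polynomial.C r, cr_map Polynomial.C v, cr_map Polynomial.C r,
        cr_map Polynomial.C v, hc', hv j]
      simp only [Y, map_zero]
      ring
    let P : I9 → Polynomial k := fun a => R a.1 ^ 2 * Y a.2
    have hP : par R = fun a => ε * P a := by
      funext a
      simp only [par, hR, P]; ring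
    have hFR : aeval (par R) F = 0 := by
      apply Polynomial.funext
      intro e
      rw [← Polynomial.coe_aeval_eq_eval, comp_aeval_apply, map_zero,
        ← h (fun i => r i + e * v i), ← aeval_eq_eval]
      congr 1
      congr 1
      funext a
      have := par_map (Polynomial.aeval e : Polynomial k →ₐ[k] k).toRingHom R a
      simp only [AlgHom.toRingHom_eq_coe, RingHom.coe_coe] at this
      rw [← this]
      congr 1
      funext i
      simp [R, ε]
      ring
    rw [hP, aeval_smul_of_isHomogeneous hF, mul_eq_zero,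
      or_iff_right (pow_ne_zero _ Polynomial.X_ne_zero)] at hFR
    have h0 := congrArg (Polynomial.aeval (0 : k)) hFR
    rw [comp_aeval_apply, map_zero, aeval_eq_eval] at h0
    rw [← h0]
    congr 1
    congr 1
    funext a
    rw [hzxy a, ← hr a.1]
    simp [P, R, Y, ε]
  · obtain ⟨j, hj⟩ := Function.ne_iff.1 hc
    have hz' : z = fun a => (y j / c4 r j) * par r a := by
      funext a
      have h3 : c4 r a.2 * y j = c4 r j * y a.2 := cr_mul_eq r (fun i => r i ^ 4) y e1 e2 _ _
      have hj' : c4 r j ≠ 0 := hj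
      rw [hzxy a, ← hr a.1, par]
      field_simp
      linear_combination (-r a.1 ^ 2) * h3
    rw [hz', eval_smul_of_isHomogeneous hF, h r, mul_zero]

/-- The vector `(1, s, t)` of polynomials. -/
noncomputable def st (k : Type u) [Field k] : Fin 3 → MvPolynomial (Fin 2) k := ![1, X 0, X 1]

omit [CharP k 2] in
theorem eval_par_of_aeval_st [Infinite k] {m : ℕ} {F : MvPolynomial I9 k} (hF : F.IsHomogeneous m)
    (h : aeval (par (st k)) F = 0) (r : Fin 3 → k) : eval (par r) F = 0 := by
  have h1 : ∀ r : Fin 3 → k, r 0 ≠ 0 → eval (par r) F = 0 := by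
    intro r hr
    have h2 := congrArg (aeval ![r 1 / r 0, r 2 / r 0] : MvPolynomial (Fin 2) k →ₐ[k] k) h
    rw [comp_aeval_apply, map_zero] at h2
    have h3 : par r = fun a => (r 0 ^ 7) *
        (aeval ![r 1 / r 0, r 2 / r 0] : MvPolynomial (Fin 2) k →ₐ[k] k) (par (st k) a) := by
      have h4 : r = fun i => r 0 * (aeval ![r 1 / r 0, r 2 / r 0] :
          MvPolynomial (Fin 2) k →ₐ[k] k) (st k i) := by
        funext i
        fin_cases i <;> simp [st] <;> field_simp
      funext a
      have := par_map (aeval ![r 1 / r 0, r 2 / r 0] :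
          MvPolynomial (Fin 2) k →ₐ[k] k).toRingHom (st k) a
      simp only [AlgHom.toRingHom_eq_coe, RingHom.coe_coe] at this
      rw [← this, ← par_smul, ← h4]
    rw [h3, eval_smul_of_isHomogeneous hF, ← aeval_eq_eval, h2, mul_zero]
  have h5 : X 0 * aeval (par (X : Fin 3 → MvPolynomial (Fin 3) k)) F = 0 := by
    apply MvPolynomial.funext
    intro r
    rw [map_mul, eval_X, map_zero]
    by_cases hr : r 0 = 0
    · rw [hr, zero_mul]
    · rw [← aeval_eq_eval, comp_aeval_apply]
      have h6 : (fun a => aeval r (par (X : Fin 3 → MvPolynomial (Fin 3) k) a)) = par r := by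
        funext a
        have := par_map (aeval r : MvPolynomial (Fin 3) k →ₐ[k] k).toRingHom X a
        simp only [AlgHom.toRingHom_eq_coe, RingHom.coe_coe] at this
        rw [← this]
        simp
      rw [h6, aeval_eq_eval, h1 r hr, mul_zero]
  rw [mul_eq_zero, or_iff_right (X_ne_zero 0)] at h5
  have h7 := congrArg (aeval r : MvPolynomial (Fin 3) k →ₐ[k] k) h5
  rw [comp_aeval_apply, map_zero] at h7
  have h6 : (fun a => aeval r (par (X : Fin 3 → MvPolynomial (Fin 3) k) a)) = par r := by
    funext a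
    have := par_map (aeval r : MvPolynomial (Fin 3) k →ₐ[k] k).toRingHom X a
    simp only [AlgHom.toRingHom_eq_coe, RingHom.coe_coe] at this
    rw [← this]
    simp
  rwa [h6, aeval_eq_eval] at h7

omit [CharP k 2] in
theorem aeval_st_of_eval_par [Infinite k] {F : MvPolynomial I9 k}
    (h : ∀ r : Fin 3 → k, eval (par r) F = 0) : aeval (par (st k)) F = 0 := by
  apply MvPolynomial.funext
  intro u
  rw [map_zero, ← aeval_eq_eval, comp_aeval_apply, ← h ![1, u 0, u 1], ← aeval_eq_eval]
  congr 1
  congr 1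
  funext a
  have := par_map (aeval u : MvPolynomial (Fin 2) k →ₐ[k] k).toRingHom (st k) a
  simp only [AlgHom.toRingHom_eq_coe, RingHom.coe_coe] at this
  rw [← this]
  congr 1
  funext i
  fin_cases i <;> simp [st]

/-- A homogeneous polynomial vanishes on the surface if and only if it vanishes at the generic
point. -/
theorem vanishesOn_surf_iff [IsAlgClosed k] {m : ℕ} {F : MvPolynomial I9 k}
    (hF : F.IsHomogeneous m) : aeval (par (st k)) F = 0 ↔ VanishesOn F (surf k) := by
  have : Infinite k := inferInstance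
  exact ⟨fun h => vanishesOn_of_eval_par hF (eval_par_of_aeval_st hF h),
    fun h => aeval_st_of_eval_par (eval_par_eq_zero hF h)⟩

end CharTwo

end Pool.Agent.H964R2.Gon
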